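import Pool.Agent.V5helper22.HeisEig

/-!
# The time-change function is not measurably cohomologous to a constant
-/

namespace Pool.Agent.V5helper22.HeisNil

open MeasureTheory Set Filter Topology
open scoped ENNReal ContDiff

variable {a : ℝ} {x : ℕ → ℤ × ℤ}

/-! ### The time-change function is not measurably cohomologous to a constant -/

/-- The time-change by `α` of the flow `φ` is measurably trivial: `α - c = X u` for a constant `c`
and a measurable `u`. -/
def MeasurablyTrivial (φ : ℝ → M → M) (α : M → ℝ) : Prop :=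
  ∃ (c : ℝ) (u : M → ℝ), AEMeasurable u haarM ∧
    ∀ t, ∀ᵐ p ∂haarM, u (φ t p) - u p = ∫ s in (0:ℝ)..t, (α (φ s p) - c)

lemma incr_small (h : IsSeq a x) {j k : ℕ} (hjk : k < j) (v : V) :
    |incr a x j v (1 / (2 * eps a x k))| ≤ (1 / 2) ^ j / 2 := by
  have hk := h.pos k
  rw [← integral_term, ← Real.norm_eq_abs]
  have := intervalIntegral.norm_integral_le_of_norm_le_const (a := 0)
    (b := 1 / (2 * eps a x k)) (C := (1 / 2) ^ j * eps a x k)
    (f := fun s => term a j (x j) (hmul v (expX (a, 1, 0) s))) (fun s _ => by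
      rw [Real.norm_eq_abs, term_eq]
      exact h.bump_le hjk _)
  refine this.trans (le_of_eq ?_)
  rw [sub_zero, abs_of_pos (by positivity)]
  field_simp

lemma incr_approx (a : ℝ) (x : ℕ → ℤ × ℤ) (j : ℕ) (v : V) (t : ℝ) :
    |incr a x j v t - 10 ^ j * (eps a x j * t)| ≤ 10 ^ j * 2 := by
  have h1 := abs_stair_sub_le (dl j) (chi x j v + eps a x j * t)
  have h2 := abs_stair_sub_le (dl j) (chi x j v)
  rw [incr, ← mul_sub, abs_mul, abs_of_pos (by positivity)]
  gcongr
  rw [abs_le] at h1 h2 ⊢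
  constructor <;> linarith [h1.1, h1.2, h2.1, h2.2]

lemma sum_ten (k : ℕ) : ∑ j ∈ Finset.range k, (10:ℝ) ^ j ≤ 10 ^ k / 9 := by
  induction k with
  | zero => simp
  | succ k ih => rw [Finset.sum_range_succ, pow_succ]; linarith

/-- the constant part of the ergodic integral -/
noncomputable def dpart (a : ℝ) (x : ℕ → ℤ × ℤ) (c : ℝ) (k : ℕ) : ℝ :=
  (1 - c) * (1 / (2 * eps a x k)) +
    ∑ j ∈ Finset.range k, 10 ^ j * (eps a x j * (1 / (2 * eps a x k)))

lemma IsSeq.D_approx (h : IsSeq a x) (c : ℝ) (k : ℕ) (v : V) :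
    |(∫ s in (0:ℝ)..(1 / (2 * eps a x k)), (alphaM a x (nilflow (a, 1, 0) s (pr v)) - c)) -
      (dpart a x c k + incr a x k v (1 / (2 * eps a x k)))| ≤ 2 * (10 ^ k / 9) + 1 := by
  set t := 1 / (2 * eps a x k) with ht
  have h1 := h.hasSum_incr v t
  have hc : Continuous fun s : ℝ => alphaM a x (nilflow (a, 1, 0) s (pr v)) :=
      h.continuous_alpha.comp ((continuous_nilflow (a, 1, 0)).comp
        (by fun_prop : Continuous fun s : ℝ => (s, pr v)))
  have h2 : (∫ s in (0:ℝ)..t, (alphaM a x (nilflow (a, 1, 0) s (pr v)) - c)) =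
      (∫ s in (0:ℝ)..t, alphaM a x (nilflow (a, 1, 0) s (pr v))) - c * t := by
    rw [intervalIntegral.integral_sub (hc.intervalIntegrable _ _) intervalIntegrable_const]
    simp [mul_comm]
  have h3 := h1.summable.sum_add_tsum_nat_add (k + 1)
  rw [Finset.sum_range_succ, h1.tsum_eq] at h3
  have h4 : |∑' j, incr a x (j + (k + 1)) v t| ≤ 1 := by
    have hs : HasSum (fun j : ℕ => ((1:ℝ) / 2) ^ j / 2) 1 := by
      have := hasSum_geometric_two.div_const 2
      norm_num at this ⊢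
      exact this
    rw [← Real.norm_eq_abs]
    refine tsum_of_norm_bounded hs fun j => ?_
    rw [Real.norm_eq_abs]
    refine (incr_small h (by omega) v).trans ?_
    gcongr ?_ / 2
    exact pow_le_pow_of_le_one (by norm_num) (by norm_num) (by omega)
  have h5 : |∑ j ∈ Finset.range k, incr a x j v t -
      ∑ j ∈ Finset.range k, 10 ^ j * (eps a x j * t)| ≤ 2 * (10 ^ k / 9) := by
    rw [← Finset.sum_sub_distrib]
    refine (Finset.abs_sum_le_sum_abs _ _).trans ?_
    refine (Finset.sum_le_sum fun j _ => incr_approx a x j v t).trans ?_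
    rw [← Finset.sum_mul]
    linarith [sum_ten k]
  rw [h2]
  have h6 : (∫ s in (0:ℝ)..t, alphaM a x (nilflow (a, 1, 0) s (pr v))) - c * t -
      (dpart a x c k + incr a x k v t) =
      (∑ j ∈ Finset.range k, incr a x j v t - ∑ j ∈ Finset.range k, 10 ^ j * (eps a x j * t)) +
        ∑' j, incr a x (j + (k + 1)) v t := by
    unfold dpart
    rw [← ht]
    linarith
  rw [h6]
  exact (abs_add_le _ _).trans (add_le_add h5 h4)

lemma IsSeq.incr_zero (h : IsSeq a x) (k : ℕ) (v : V)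
    (hv : Int.fract (chi x k v) ∈ Ico (dl k) (1 / 2)) :
    incr a x k v (1 / (2 * eps a x k)) = 0 := by
  have hk := h.pos k
  have h1 : eps a x k * (1 / (2 * eps a x k)) = 1 / 2 := by field_simp
  have h2 := Int.fract_add_floor (chi x k v)
  have h3 : ⌊chi x k v + 1 / 2⌋ = ⌊chi x k v⌋ := by
    rw [Int.floor_eq_iff]; constructor <;> linarith [hv.1, hv.2, dl_pos k]
  have h4 : dl k ≤ Int.fract (chi x k v + 1 / 2) := by
    rw [← Int.self_sub_floor, h3]; linarith [hv.1]
  rw [incr, h1, stair_of_good (dl_pos k) h4, stair_of_good (dl_pos k) hv.1, h3]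
  simp

lemma IsSeq.incr_one (h : IsSeq a x) (k : ℕ) (v : V)
    (hv : Int.fract (chi x k v) ∈ Ico (1 / 2 + dl k) 1) :
    incr a x k v (1 / (2 * eps a x k)) = 10 ^ k := by
  have hk := h.pos k
  have h1 : eps a x k * (1 / (2 * eps a x k)) = 1 / 2 := by field_simp
  have h2 := Int.fract_add_floor (chi x k v)
  have h3 : ⌊chi x k v + 1 / 2⌋ = ⌊chi x k v⌋ + 1 := by
    rw [Int.floor_eq_iff]; push_cast; constructor <;> linarith [hv.1, hv.2, dl_pos k]
  have h4 : dl k ≤ Int.fract (chi x k v + 1 / 2) := by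
    rw [← Int.self_sub_floor, h3]; push_cast; linarith [hv.1]
  have h5 : dl k ≤ Int.fract (chi x k v) := by linarith [hv.1]
  rw [incr, h1, stair_of_good (dl_pos k) h4, stair_of_good (dl_pos k) h5, h3]
  push_cast; ring

lemma IsSeq.measure_G0 (h : IsSeq a x) (k : ℕ) :
    ENNReal.ofReal (3 / 8) ≤ haarM {p | cfrac x k p ∈ Ico (dl k) (1 / 2)} := by
  rw [measure_cfrac x k (h.ne k) _ measurableSet_Ico]
  have : Ico (dl k) (1 / 2) ∩ Ico (0:ℝ) 1 = Ico (dl k) (1 / 2) := by
    refine inter_eq_left.2 fun y hy => ⟨(dl_pos k).le.trans hy.1, hy.2.trans (by norm_num)⟩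
  rw [this, Real.volume_Ico]
  exact ENNReal.ofReal_le_ofReal (by linarith [dl_le k])

lemma IsSeq.measure_G1 (h : IsSeq a x) (k : ℕ) :
    ENNReal.ofReal (3 / 8) ≤ haarM {p | cfrac x k p ∈ Ico (1 / 2 + dl k) 1} := by
  rw [measure_cfrac x k (h.ne k) _ measurableSet_Ico]
  have : Ico (1 / 2 + dl k) 1 ∩ Ico (0:ℝ) 1 = Ico (1 / 2 + dl k) 1 := by
    refine inter_eq_left.2 fun y hy => ⟨?_, hy.2⟩
    linarith [dl_pos k, hy.1]
  rw [this, Real.volume_Ico]
  exact ENNReal.ofReal_le_ofReal (by linarith [dl_le k])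

theorem IsSeq.not_trivial (h : IsSeq a x) :
    ¬ MeasurablyTrivial (nilflow (a, 1, 0)) (alphaM a x) := by
  rintro ⟨c, u, hu, hcoh⟩
  -- tightness
  obtain ⟨K, hK⟩ : ∃ K : ℕ, haarM {p | (K:ℝ) < |hu.mk u p|} < ENNReal.ofReal (1 / 16) := by
    have hmeas : ∀ n : ℕ, MeasurableSet {p | (n:ℝ) < |hu.mk u p|} := fun n =>
      measurableSet_lt measurable_const (hu.measurable_mk.abs)
    have h1 := tendsto_measure_iInter_atTop (μ := haarM)
      (s := fun n : ℕ => {p | (n:ℝ) < |hu.mk u p|}) (fun n => (hmeas n).nullMeasurableSet)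
      (fun m n hmn p hp => by
        change (n:ℝ) < _ at hp
        change (m:ℝ) < _
        exact lt_of_le_of_lt (Nat.cast_le.2 hmn) hp) ⟨0, measure_ne_top _ _⟩
    have h2 : ⋂ n : ℕ, {p | (n:ℝ) < |hu.mk u p|} = ∅ := by
      ext p
      simp only [mem_iInter, mem_ofPred_eq, mem_empty_iff_false, iff_false, not_forall, not_lt]
      exact exists_nat_ge _
    rw [h2, measure_empty] at h1
    exact (h1.eventually (gt_mem_nhds (by simp))).exists
  have hmk := hu.ae_eq_mk
  have tight : ∀ t, haarM {p | 2 * (K:ℝ) <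
      |∫ s in (0:ℝ)..t, (alphaM a x (nilflow (a, 1, 0) s p) - c)|} ≤ ENNReal.ofReal (1 / 8) := by
    intro t
    have hmp : MeasurePreserving (nilflow (a, 1, 0) t) haarM haarM := measurePreserving_rt _
    have hmk' : ∀ᵐ p ∂haarM, u (nilflow (a, 1, 0) t p) = hu.mk u (nilflow (a, 1, 0) t p) :=
      hmp.quasiMeasurePreserving.ae hmk
    have hsub : ({p | 2 * (K:ℝ) <
        |∫ s in (0:ℝ)..t, (alphaM a x (nilflow (a, 1, 0) s p) - c)|} : Set M) ≤ᵐ[haarM]
        ((nilflow (a, 1, 0) t) ⁻¹' {p | (K:ℝ) < |hu.mk u p|} ∪ {p | (K:ℝ) < |hu.mk u p|} :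
          Set M) := by
      filter_upwards [hmk, hmk', hcoh t] with p h1 h2 h3 h4
      change 2 * (K:ℝ) < _ at h4
      rw [← h3, h1, h2] at h4
      by_contra hcon
      have hcon' : ¬ ((K:ℝ) < |hu.mk u (nilflow (a, 1, 0) t p)| ∨ (K:ℝ) < |hu.mk u p|) := hcon
      push Not at hcon'
      have := abs_sub (hu.mk u (nilflow (a, 1, 0) t p)) (hu.mk u p)
      linarith [hcon'.1, hcon'.2]
    refine (measure_mono_ae hsub).trans ((measure_union_le _ _).trans ?_)
    have hmeas : MeasurableSet {p | (K:ℝ) < |hu.mk u p|} :=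
      measurableSet_lt measurable_const (hu.measurable_mk.abs)
    rw [hmp.measure_preimage hmeas.nullMeasurableSet]
    refine (add_le_add hK.le hK.le).trans ?_
    rw [← ENNReal.ofReal_add (by norm_num) (by norm_num)]
    exact ENNReal.ofReal_le_ofReal (by norm_num)
  -- choose a large `k`
  obtain ⟨k, hk⟩ := pow_unbounded_of_one_lt (9 * (4 * (K:ℝ) + 2) / 5) (by norm_num : (1:ℝ) < 10)
  have pick : ∀ G : Set M, ENNReal.ofReal (3 / 8) ≤ haarM G →
      ∃ p ∈ G, |∫ s in (0:ℝ)..(1 / (2 * eps a x k)),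
        (alphaM a x (nilflow (a, 1, 0) s p) - c)| ≤ 2 * K := by
    intro G hG
    by_contra hcon
    push Not at hcon
    have h1 := (hG.trans (measure_mono (fun p hp => hcon p hp))).trans (tight _)
    rw [ENNReal.ofReal_le_ofReal_iff (by norm_num)] at h1
    norm_num at h1
  obtain ⟨p0, hp0, hD0⟩ := pick _ (h.measure_G0 k)
  obtain ⟨p1, hp1, hD1⟩ := pick _ (h.measure_G1 k)
  obtain ⟨v0, rfl⟩ := pr_surjective p0
  obtain ⟨v1, rfl⟩ := pr_surjective p1
  have e0 := h.D_approx c k v0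
  have e1 := h.D_approx c k v1
  rw [h.incr_zero k v0 hp0] at e0
  rw [h.incr_one k v1 hp1] at e1
  rw [abs_le] at e0 e1 hD0 hD1
  rw [div_lt_iff₀ (by norm_num)] at hk
  linarith [e0.1, e0.2, e1.1, e1.2, hD0.1, hD0.2, hD1.1, hD1.2]

end Pool.Agent.V5helper22.HeisNil
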