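import Pool.Agent.V5helper22.HeisNil

/-!
# A smooth staircase and the choice of the frequencies of the time-change
-/

namespace Pool.Agent.V5helper22.HeisNil

open MeasureTheory Set Filter Topology
open scoped ENNReal ContDiff

/-! ### The smooth staircase -/

/-- a smooth function with `stair δ (x + 1) = stair δ x + 1` which is equal to an integer
outside a small set -/
noncomputable def stair (δ : ℝ) (x : ℝ) : ℝ := ⌊x⌋ + Real.smoothTransition (Int.fract x / δ)

lemma stair_add_int (δ x : ℝ) (n : ℤ) : stair δ (x + n) = stair δ x + n := by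
  simp only [stair, Int.floor_add_intCast, Int.fract_add_intCast]
  push_cast; ring

lemma stair_of_good {δ : ℝ} (hδ : 0 < δ) {x : ℝ} (hx : δ ≤ Int.fract x) :
    stair δ x = ⌊x⌋ + 1 := by
  rw [stair, Real.smoothTransition.one_of_one_le]
  rwa [le_div_iff₀ hδ, one_mul]

lemma abs_stair_sub_le (δ x : ℝ) : |stair δ x - x| ≤ 1 := by
  have h1 := Real.smoothTransition.nonneg (Int.fract x / δ)
  have h2 := Real.smoothTransition.le_one (Int.fract x / δ)
  have h3 := Int.fract_nonneg x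
  have h4 := Int.fract_lt_one x
  have h5 := Int.floor_add_fract x
  rw [abs_le, stair]
  constructor <;> linarith

lemma stair_contDiff {δ : ℝ} (hδ : 0 < δ) (hδ1 : δ < 1) : ContDiff ℝ ∞ (stair δ) := by
  rw [contDiff_iff_contDiffAt]
  intro x
  set n := ⌊x⌋ with hn
  have hev : stair δ =ᶠ[𝓝 x] fun y => n + Real.smoothTransition ((y - n) / δ) := by
    have hx : x ∈ Ioo ((n:ℝ) - 1 + δ) (n + 1) := by
      have h1 := Int.floor_le x
      have h2 := Int.lt_floor_add_one x
      constructor <;> simp only [hn] <;> linarith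
    filter_upwards [isOpen_Ioo.mem_nhds hx] with y hy
    by_cases hyn : (n:ℝ) ≤ y
    · have hfl : ⌊y⌋ = n := by
        rw [Int.floor_eq_iff]; exact ⟨hyn, hy.2⟩
      rw [stair, Int.fract, hfl]
    · push Not at hyn
      have hfl : ⌊y⌋ = n - 1 := by
        rw [Int.floor_eq_iff]; push_cast; constructor <;> linarith [hy.1]
      rw [stair, Int.fract, hfl, Real.smoothTransition.one_of_one_le, Real.smoothTransition.zero_of_nonpos]
      · push_cast; ring
      · exact div_nonpos_of_nonpos_of_nonneg (by linarith) hδ.le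
      · rw [le_div_iff₀ hδ]; push_cast; linarith [hy.1]
  refine ContDiffAt.congr_of_eventuallyEq ?_ hev
  refine contDiffAt_const.add ?_
  exact (Real.smoothTransition.contDiff (n := ⊤)).contDiffAt.comp x
    ((contDiffAt_id.sub contDiffAt_const).div_const δ)

/-- the derivative of the staircase -/
noncomputable def bump (δ : ℝ) : ℝ → ℝ := deriv (stair δ)

lemma hasDerivAt_stair {δ : ℝ} (hδ : 0 < δ) (hδ1 : δ < 1) (x : ℝ) :
    HasDerivAt (stair δ) (bump δ x) x :=
  ((stair_contDiff hδ hδ1).differentiable (by simp)).differentiableAt.hasDerivAt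

lemma bump_contDiff {δ : ℝ} (hδ : 0 < δ) (hδ1 : δ < 1) : ContDiff ℝ ∞ (bump δ) := by
  have h := stair_contDiff hδ hδ1
  exact (contDiff_infty_iff_deriv.1 h).2

lemma bump_add_int (δ x : ℝ) (n : ℤ) : bump δ (x + n) = bump δ x := by
  unfold bump
  rw [← deriv_comp_add_const]
  have : (fun x => stair δ (x + n)) = fun x => stair δ x + n := by
    ext x; exact stair_add_int δ x n
  rw [this, deriv_add_const]

/-- derivatives of smooth periodic functions are bounded -/
lemma exists_bound_iteratedDeriv (f : ℝ → ℝ) (hf : ContDiff ℝ ∞ f) (hp : ∀ x, f (x + 1) = f x)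
    (k : ℕ) : ∃ B : ℝ, 1 ≤ B ∧ ∀ n ≤ k, ∀ x, ‖iteratedFDeriv ℝ n f x‖ ≤ B := by
  have hper : ∀ n, Function.Periodic (iteratedDeriv n f) 1 := by
    intro n
    induction n with
    | zero => intro x; simp [iteratedDeriv_zero, hp]
    | succ n ih =>
      intro x
      rw [iteratedDeriv_succ, ← deriv_comp_add_const]
      congr 1
      ext y; exact ih y
  have hb : ∀ n, ∃ B : ℝ, ∀ x, ‖iteratedFDeriv ℝ n f x‖ ≤ B := by
    intro n
    have hc : Continuous (iteratedDeriv n f) :=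
      hf.continuous_iteratedDeriv n (by exact_mod_cast le_top)
    obtain ⟨B, hB⟩ := (isCompact_Icc (a := (0:ℝ)) (b := 1)).exists_bound_of_continuousOn
      hc.continuousOn
    refine ⟨B, fun x => ?_⟩
    rw [norm_iteratedFDeriv_eq_norm_iteratedDeriv]
    have h1 : iteratedDeriv n f x = iteratedDeriv n f (Int.fract x) := by
      have := (hper n).sub_zsmul_eq (x := x) ⌊x⌋
      rw [← this]
      congr 1
      rw [zsmul_eq_mul, mul_one, Int.self_sub_floor]
    rw [h1]
    exact hB _ ⟨Int.fract_nonneg x, (Int.fract_lt_one x).le⟩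
  choose B hB using hb
  refine ⟨1 + ∑ n ∈ Finset.range (k+1), |B n|, ?_, fun n hn x => ?_⟩
  · have : 0 ≤ ∑ n ∈ Finset.range (k+1), |B n| := Finset.sum_nonneg fun _ _ => abs_nonneg _
    linarith
  · have h1 := Finset.single_le_sum (f := fun n => |B n|) (fun i _ => abs_nonneg (B i))
      (Finset.mem_range.2 (Nat.lt_succ_of_le hn))
    have h2 := hB n x
    have h3 := le_abs_self (B n)
    linarith

/-! ### Choice of the frequencies -/

/-- good rational approximations of a Liouville number -/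
lemma liouville_approx {a : ℝ} (ha : Liouville a) (k : ℕ) (c : ℝ) (hc : 0 < c) :
    ∃ q p : ℤ, q ≠ 0 ∧ 0 < q * a - p ∧ (q * a - p) * (|(q:ℝ)| + |(p:ℝ)|) ^ k < c := by
  have hf := ha.frequently_exists_num (k + 2)
  obtain ⟨N, hN⟩ := exists_nat_gt ((|a| + 2) ^ k / c)
  obtain ⟨b, ⟨hb1, hbN⟩, m, hne, hlt⟩ :=
    (((eventually_ge_atTop 1).and (eventually_ge_atTop N)).and_frequently hf).exists
  have hb : (1:ℝ) ≤ b := by exact_mod_cast hb1
  have hb0 : (0:ℝ) < b := by linarith
  have hNb : (N:ℝ) ≤ b := by exact_mod_cast hbN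
  -- `ε = |b a - m|`
  have h1 : |b * a - m| = b * |a - m / b| := by
    rw [← abs_of_pos hb0, ← abs_mul, abs_of_pos hb0]
    congr 1
    field_simp
  have h2 : |b * a - m| < 1 / (b:ℝ) ^ (k + 1) := by
    rw [h1]
    have : b * |a - m / b| < b * (1 / (b:ℝ) ^ (k + 2)) := mul_lt_mul_of_pos_left hlt hb0
    refine this.trans_le (le_of_eq ?_)
    rw [pow_succ (b:ℝ) (k+1)]
    field_simp
  have h3 : |b * a - m| < 1 := by
    refine h2.trans_le ?_
    rw [div_le_one (by positivity)]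
    exact one_le_pow₀ hb
  have h4 : |(m:ℝ)| ≤ b * |a| + 1 := by
    have : (m:ℝ) = b * a - (b * a - m) := by ring
    calc |(m:ℝ)| = |b * a - (b * a - m)| := by rw [← this]
      _ ≤ |b * a| + |b * a - m| := abs_sub _ _
      _ ≤ b * |a| + 1 := by rw [abs_mul, abs_of_pos hb0]; linarith
  have h5 : (b:ℝ) + |(m:ℝ)| ≤ b * (|a| + 2) := by nlinarith
  have h6 : |b * a - m| * ((b:ℝ) + |(m:ℝ)|) ^ k < c := by
    have h7 : ((b:ℝ) + |(m:ℝ)|) ^ k ≤ (b * (|a| + 2)) ^ k := by gcongr
    have h8 : |b * a - m| * ((b:ℝ) + |(m:ℝ)|) ^ k ≤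
        1 / (b:ℝ) ^ (k + 1) * (b * (|a| + 2)) ^ k := by
      gcongr
    refine h8.trans_lt ?_
    rw [mul_pow, pow_succ]
    have h9 : 1 / ((b:ℝ) ^ k * b) * ((b:ℝ) ^ k * (|a| + 2) ^ k) = (|a| + 2) ^ k / b := by
      field_simp
    rw [h9, div_lt_iff₀ hb0]
    rw [div_lt_iff₀ hc] at hN
    nlinarith
  have hne' : b * a - m ≠ 0 := by
    intro h
    apply hne
    field_simp
    linarith
  rcases lt_or_gt_of_ne hne' with h | h
  · refine ⟨-b, -m, by simpa using hb0.ne', ?_, ?_⟩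
    · push_cast; linarith
    · push_cast
      rw [abs_neg, abs_neg, abs_of_pos hb0]
      rw [abs_of_neg h] at h6
      convert h6 using 2
      ring
  · refine ⟨b, m, by simpa using hb0.ne', by exact_mod_cast h, ?_⟩
    rw [abs_of_pos h] at h6
    simpa [abs_of_pos hb0] using h6

/-- the widths -/
noncomputable def dl (k : ℕ) : ℝ := (1 / 2) ^ (k + 3)

lemma dl_pos (k : ℕ) : 0 < dl k := by unfold dl; positivity
lemma dl_le (k : ℕ) : dl k ≤ 1 / 8 := by
  unfold dl
  rw [pow_add]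
  have : ((1:ℝ)/2) ^ k ≤ 1 := pow_le_one₀ (by norm_num) (by norm_num)
  nlinarith
lemma dl_lt_one (k : ℕ) : dl k < 1 := (dl_le k).trans_lt (by norm_num)

/-- the `k`-th term of the time-change function -/
noncomputable def term (a : ℝ) (k : ℕ) (x : ℤ × ℤ) (v : V) : ℝ :=
  (x.1 * a - x.2) * 10 ^ k * bump (dl k) (x.1 * v.1 - x.2 * v.2.1)

/-- the requirements on the `k`-th frequency -/
structure Good (a : ℝ) (k : ℕ) (c : ℝ) (x : ℤ × ℤ) : Prop where
  ne : x.1 ≠ 0
  pos : 0 < x.1 * a - x.2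
  le : x.1 * a - x.2 ≤ c
  deriv_le : ∀ n ≤ k, ∀ v, ‖iteratedFDeriv ℝ n (term a k x) v‖ ≤ (1 / 2) ^ (k + 2)
  bump_le : ∀ y, |(x.1 * a - x.2) * 10 ^ k * bump (dl k) y| ≤ c
  bump_le' : ∀ y, |(x.1 * a - x.2) * 10 ^ k * bump (dl k) y| ≤ (1 / 2) ^ (k + 2)

lemma exists_good {a : ℝ} (ha : Liouville a) (k : ℕ) (c : ℝ) (hc : 0 < c) :
    ∃ x, Good a k c x := by
  have hb := bump_contDiff (dl_pos k) (dl_lt_one k)
  obtain ⟨B, hB1, hB⟩ := exists_bound_iteratedDeriv (bump (dl k)) hb
    (fun x => by simpa using bump_add_int (dl k) x 1) k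
  have hB0 : 0 < B := by linarith
  set c' : ℝ := min c ((1 / 2) ^ (k + 2)) / (10 ^ k * B) with hc'
  have hc'0 : 0 < c' := by positivity
  obtain ⟨q, p, hq, hpos, hlt⟩ := liouville_approx ha k c' hc'0
  have hq1 : (1:ℝ) ≤ |(q:ℝ)| := by
    rw [← Int.cast_abs]; exact_mod_cast Int.one_le_abs hq
  have hR1 : (1:ℝ) ≤ |(q:ℝ)| + |(p:ℝ)| := by linarith [abs_nonneg (p:ℝ)]
  set R := |(q:ℝ)| + |(p:ℝ)| with hR
  set ε := q * a - p with hε
  have key : ε * 10 ^ k * B * R ^ k ≤ min c ((1 / 2) ^ (k + 2)) := by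
    rw [hc', lt_div_iff₀ (by positivity)] at hlt
    nlinarith
  have hRk : (1:ℝ) ≤ R ^ k := one_le_pow₀ hR1
  have h10 : (1:ℝ) ≤ 10 ^ k := one_le_pow₀ (by norm_num)
  have key2 : ε * 10 ^ k * B ≤ min c ((1 / 2) ^ (k + 2)) := by
    refine le_trans ?_ key
    exact le_mul_of_one_le_right (by positivity) hRk
  have hB0' : ∀ y, |bump (dl k) y| ≤ B := by
    intro y
    have := hB 0 (Nat.zero_le _) y
    rwa [norm_iteratedFDeriv_zero] at this
  have hby : ∀ y, |ε * 10 ^ k * bump (dl k) y| ≤ min c ((1 / 2) ^ (k + 2)) := by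
    intro y
    rw [abs_mul, abs_of_pos (by positivity)]
    exact (mul_le_mul_of_nonneg_left (hB0' y) (by positivity)).trans key2
  refine ⟨(q, p), hq, hpos, ?_, ?_, fun y => (hby y).trans (min_le_left _ _),
    fun y => (hby y).trans (min_le_right _ _)⟩
  · refine le_trans ?_ (key2.trans (min_le_left _ _))
    have : 1 ≤ 10 ^ k * B := by nlinarith
    calc ε = ε * 1 := by ring
      _ ≤ ε * (10 ^ k * B) := by gcongr
      _ = _ := by ring
  · intro n hn v
    set L : V →L[ℝ] ℝ := (q:ℝ) • ContinuousLinearMap.fst ℝ ℝ (ℝ × ℝ) -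
      (p:ℝ) • ((ContinuousLinearMap.fst ℝ ℝ ℝ).comp (ContinuousLinearMap.snd ℝ ℝ (ℝ × ℝ))) with hL
    have hLv : ∀ v : V, L v = q * v.1 - p * v.2.1 := fun v => by simp [hL]
    have hLn : ‖L‖ ≤ R := by
      refine L.opNorm_le_bound (by positivity) fun v => ?_
      rw [hLv, hR, add_mul]
      refine (norm_sub_le _ _).trans ?_
      rw [norm_mul, norm_mul]
      have h1 : ‖v.1‖ ≤ ‖v‖ := norm_fst_le v
      have h2 : ‖v.2.1‖ ≤ ‖v‖ := (norm_fst_le v.2).trans (norm_snd_le v)
      simp only [Real.norm_eq_abs] at h1 h2 ⊢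
      gcongr
    have hterm : term a k (q, p) = (ε * 10 ^ k) • (bump (dl k) ∘ L) := by
      ext w
      simp only [term, Pi.smul_apply, Function.comp, smul_eq_mul, hLv, hε]
    rw [hterm]
    have hcomp : ContDiff ℝ ∞ (bump (dl k) ∘ L) := hb.comp L.contDiff
    rw [iteratedFDeriv_const_smul_apply (hcomp.of_le (by exact_mod_cast le_top)).contDiffAt,
      L.iteratedFDeriv_comp_right (hb.of_le (by exact_mod_cast le_top)) v (i := n) (n := n) le_rfl,
      norm_smul]
    refine (mul_le_mul_of_nonneg_left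
      (ContinuousMultilinearMap.norm_compContinuousLinearMap_le _ _) (norm_nonneg _)).trans ?_
    rw [Finset.prod_const, Finset.card_univ, Fintype.card_fin, Real.norm_of_nonneg (by positivity)]
    refine le_trans ?_ (key.trans (min_le_right _ _))
    have h3 := hB n hn (L v)
    have h4 : ‖L‖ ^ n ≤ R ^ k := by
      calc ‖L‖ ^ n ≤ R ^ n := by gcongr
        _ ≤ R ^ k := pow_le_pow_right₀ hR1 hn
    calc ε * 10 ^ k * (‖iteratedFDeriv ℝ n (bump (dl k)) (L v)‖ * ‖L‖ ^ n)
        ≤ ε * 10 ^ k * (B * R ^ k) := by gcongr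
      _ = ε * 10 ^ k * B * R ^ k := by ring

/-- the sequence of frequencies -/
lemma exists_seq {a : ℝ} (ha : Liouville a) :
    ∃ x : ℕ → ℤ × ℤ, Good a 0 1 (x 0) ∧
      ∀ k, Good a (k + 1) ((1 / 2) ^ (k + 1) * ((x k).1 * a - (x k).2)) (x (k + 1)) := by
  have ex := fun (k : ℕ) (c : ℝ) (hc : 0 < c) => exists_good ha k c hc
  choose! f hf using ex
  let x : ℕ → ℤ × ℤ := fun k => Nat.rec (f 0 1)
    (fun k y => f (k + 1) ((1 / 2) ^ (k + 1) * (y.1 * a - y.2))) k
  have h0 : Good a 0 1 (x 0) := hf 0 1 one_pos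
  have hpos : ∀ k, 0 < (x k).1 * a - (x k).2 := by
    intro k
    induction k with
    | zero => exact h0.pos
    | succ k ih => exact (hf (k + 1) _ (mul_pos (by positivity) ih)).pos
  exact ⟨x, h0, fun k => hf (k + 1) _ (mul_pos (by positivity) (hpos k))⟩

end Pool.Agent.V5helper22.HeisNil
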