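import Pool.Agent.V5helper22.HeisUE
import Pool.Agent.V5helper22.HeisStair

/-!
# The time-change function
-/

namespace Pool.Agent.V5helper22.HeisNil

open MeasureTheory Set Filter Topology
open scoped ENNReal ContDiff

/-! ### The time-change function -/

/-- the frequencies chosen above -/
structure IsSeq (a : ℝ) (x : ℕ → ℤ × ℤ) : Prop where
  h0 : Good a 0 1 (x 0)
  hs : ∀ k, Good a (k + 1) ((1 / 2) ^ (k + 1) * ((x k).1 * a - (x k).2)) (x (k + 1))

/-- `ε_k = q_k a - p_k` -/
noncomputable def eps (a : ℝ) (x : ℕ → ℤ × ℤ) (k : ℕ) : ℝ := (x k).1 * a - (x k).2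

/-- `χ_k (x, y, z) = q_k x - p_k y` -/
noncomputable def chi (x : ℕ → ℤ × ℤ) (k : ℕ) (v : V) : ℝ := (x k).1 * v.1 - (x k).2 * v.2.1

variable {a : ℝ} {x : ℕ → ℤ × ℤ}

lemma IsSeq.ne (h : IsSeq a x) (k : ℕ) : (x k).1 ≠ 0 := by
  cases k with
  | zero => exact h.h0.ne
  | succ k => exact (h.hs k).ne

lemma IsSeq.pos (h : IsSeq a x) (k : ℕ) : 0 < eps a x k := by
  cases k with
  | zero => exact h.h0.pos
  | succ k => exact (h.hs k).pos

lemma IsSeq.deriv_le (h : IsSeq a x) (k : ℕ) : ∀ n ≤ k, ∀ v,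
    ‖iteratedFDeriv ℝ n (term a k (x k)) v‖ ≤ (1 / 2) ^ (k + 2) := by
  cases k with
  | zero => exact h.h0.deriv_le
  | succ k => exact (h.hs k).deriv_le

lemma IsSeq.bump_le' (h : IsSeq a x) (k : ℕ) (y : ℝ) :
    |eps a x k * 10 ^ k * bump (dl k) y| ≤ (1 / 2) ^ (k + 2) := by
  cases k with
  | zero => exact h.h0.bump_le' y
  | succ k => exact (h.hs k).bump_le' y

lemma IsSeq.antitone (h : IsSeq a x) : Antitone (eps a x) := by
  refine antitone_nat_of_succ_le fun k => ?_
  refine (h.hs k).le.trans ?_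
  have h1 : ((1:ℝ) / 2) ^ (k + 1) ≤ 1 := pow_le_one₀ (by norm_num) (by norm_num)
  have h2 := h.pos k
  unfold eps at h2 ⊢
  nlinarith

lemma IsSeq.bump_le (h : IsSeq a x) {j k : ℕ} (hjk : k < j) (y : ℝ) :
    |eps a x j * 10 ^ j * bump (dl j) y| ≤ (1 / 2) ^ j * eps a x k := by
  obtain ⟨i, rfl⟩ : ∃ i, j = i + 1 := ⟨j - 1, by omega⟩
  refine ((h.hs i).bump_le y).trans ?_
  have : eps a x i ≤ eps a x k := h.antitone (by omega)
  unfold eps at this ⊢
  gcongr

lemma term_eq (a : ℝ) (x : ℕ → ℤ × ℤ) (k : ℕ) (v : V) :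
    term a k (x k) v = eps a x k * 10 ^ k * bump (dl k) (chi x k v) := rfl

lemma contDiff_term (a : ℝ) (x : ℕ → ℤ × ℤ) (k : ℕ) : ContDiff ℝ ∞ (term a k (x k)) := by
  have h1 : ContDiff ℝ ∞ (fun v : V => ((x k).1:ℝ) * v.1 - (x k).2 * v.2.1) := by fun_prop
  exact contDiff_const.mul ((bump_contDiff (dl_pos k) (dl_lt_one k)).comp h1)

lemma IsSeq.abs_term_le (h : IsSeq a x) (k : ℕ) (v : V) :
    |term a k (x k) v| ≤ (1 / 2) ^ (k + 2) := by
  rw [term_eq]; exact h.bump_le' k _

lemma summable_half : Summable fun k : ℕ => ((1:ℝ) / 2) ^ (k + 2) := by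
  have := (summable_geometric_two).mul_left ((1/2:ℝ)^2)
  refine this.congr fun k => ?_
  rw [pow_add]; ring

lemma tsum_half : ∑' k : ℕ, ((1:ℝ) / 2) ^ (k + 2) = 1 / 2 := by
  have h1 : ∀ k : ℕ, ((1:ℝ) / 2) ^ (k + 2) = (1/4) * (1/2) ^ k := by
    intro k; rw [pow_add]; ring
  simp only [h1]
  rw [tsum_mul_left, tsum_geometric_two]; norm_num

lemma IsSeq.summable_term (h : IsSeq a x) (v : V) : Summable fun k => term a k (x k) v :=
  Summable.of_norm_bounded summable_half (fun k => by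
    rw [Real.norm_eq_abs]; exact h.abs_term_le k v)

/-- the time-change function on the group -/
noncomputable def alphaV (a : ℝ) (x : ℕ → ℤ × ℤ) (v : V) : ℝ := 1 + ∑' k, term a k (x k) v

lemma IsSeq.contDiff_alphaV (h : IsSeq a x) : ContDiff ℝ ∞ (alphaV a x) := by
  unfold alphaV
  refine contDiff_const.add ?_
  refine contDiff_tsum_of_eventually (v := fun _ k => (1 / 2) ^ (k + 2))
    (fun k => contDiff_term a x k) (fun _ _ => summable_half) fun n _ => ?_
  rw [Nat.cofinite_eq_atTop]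
  filter_upwards [eventually_ge_atTop n] with k hk v
  exact h.deriv_le k n hk v

lemma IsSeq.abs_tsum_le (h : IsSeq a x) (v : V) : |∑' k, term a k (x k) v| ≤ 1 / 2 := by
  rw [← tsum_half, ← Real.norm_eq_abs]
  exact tsum_of_norm_bounded summable_half.hasSum (fun k => h.abs_term_le k v)

lemma chi_smul (x : ℕ → ℤ × ℤ) (k : ℕ) (g : Gam) (v : V) :
    chi x k (g • v) = chi x k v + (((x k).1 * g.l - (x k).2 * g.m : ℤ) : ℝ) := by
  simp only [chi, smul_def, hmul, Gam.toV]
  push_cast; ring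

lemma term_smul (a : ℝ) (x : ℕ → ℤ × ℤ) (k : ℕ) (g : Gam) (v : V) :
    term a k (x k) (g • v) = term a k (x k) v := by
  rw [term_eq, term_eq, chi_smul, bump_add_int]

/-- the time-change function on `M` -/
noncomputable def alphaM (a : ℝ) (x : ℕ → ℤ × ℤ) : M → ℝ :=
  Quotient.lift (alphaV a x) (by
    rintro v w ⟨g, rfl⟩
    change alphaV a x (g • w) = alphaV a x w
    simp only [alphaV, term_smul])

@[simp] lemma alphaM_pr (a : ℝ) (x : ℕ → ℤ × ℤ) (v : V) : alphaM a x (pr v) = alphaV a x v := rfl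

lemma IsSeq.alpha_ge (h : IsSeq a x) (p : M) : 1 / 2 ≤ alphaM a x p := by
  obtain ⟨v, rfl⟩ := pr_surjective p
  have := h.abs_tsum_le v
  rw [abs_le] at this
  rw [alphaM_pr, alphaV]; linarith [this.1]

lemma IsSeq.alpha_le (h : IsSeq a x) (p : M) : alphaM a x p ≤ 3 / 2 := by
  obtain ⟨v, rfl⟩ := pr_surjective p
  have := h.abs_tsum_le v
  rw [abs_le] at this
  rw [alphaM_pr, alphaV]; linarith [this.2]

lemma IsSeq.continuous_alpha (h : IsSeq a x) : Continuous (alphaM a x) :=
  isOpenQuotientMap_pr.isQuotientMap.continuous_iff.2 h.contDiff_alphaV.continuous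

lemma chi_flow (a : ℝ) (x : ℕ → ℤ × ℤ) (k : ℕ) (v : V) (t : ℝ) :
    chi x k (hmul v (expX (a, 1, 0) t)) = chi x k v + eps a x k * t := by
  simp only [chi, hmul, expX, eps]; ring

/-- the increments of the staircases -/
noncomputable def incr (a : ℝ) (x : ℕ → ℤ × ℤ) (k : ℕ) (v : V) (t : ℝ) : ℝ :=
  10 ^ k * (stair (dl k) (chi x k v + eps a x k * t) - stair (dl k) (chi x k v))

lemma integral_term (a : ℝ) (x : ℕ → ℤ × ℤ) (k : ℕ) (v : V) (t : ℝ) :
    ∫ s in (0:ℝ)..t, term a k (x k) (hmul v (expX (a, 1, 0) s)) = incr a x k v t := by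
  have h1 : ∀ s, HasDerivAt (fun s => 10 ^ k * stair (dl k) (chi x k v + eps a x k * s))
      (term a k (x k) (hmul v (expX (a, 1, 0) s))) s := by
    intro s
    have h2 := hasDerivAt_stair (dl_pos k) (dl_lt_one k) (chi x k v + eps a x k * s)
    have h3 : HasDerivAt (fun s => chi x k v + eps a x k * s) (eps a x k) s := by
      simpa using ((hasDerivAt_id s).const_mul (eps a x k)).const_add (chi x k v)
    have h4 := (h2.comp s h3).const_mul ((10:ℝ) ^ k)
    refine h4.congr_deriv ?_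
    rw [term_eq, chi_flow]; ring
  rw [intervalIntegral.integral_eq_sub_of_hasDerivAt (fun s _ => h1 s)]
  · simp only [incr, mul_zero, add_zero]; ring
  · have : Continuous fun s => term a k (x k) (hmul v (expX (a, 1, 0) s)) := by
      refine (contDiff_term a x k).continuous.comp ?_
      unfold hmul expX; fun_prop
    exact this.intervalIntegrable _ _

/-- The ergodic integrals of the time-change function. -/
lemma IsSeq.hasSum_incr (h : IsSeq a x) (v : V) (t : ℝ) :
    HasSum (fun k => incr a x k v t)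
      ((∫ s in (0:ℝ)..t, alphaM a x (nilflow (a, 1, 0) s (pr v))) - t) := by
  have h1 : HasSum (fun k => ∫ s in (0:ℝ)..t, term a k (x k) (hmul v (expX (a, 1, 0) s)))
      (∫ s in (0:ℝ)..t, ∑' k, term a k (x k) (hmul v (expX (a, 1, 0) s))) := by
    refine intervalIntegral.hasSum_integral_of_dominated_convergence
      (fun k _ => (1 / 2) ^ (k + 2)) (fun k => ?_) (fun k => ?_) ?_ ?_ ?_
    · have : Continuous fun s => term a k (x k) (hmul v (expX (a, 1, 0) s)) := by
        refine (contDiff_term a x k).continuous.comp ?_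
        unfold hmul expX; fun_prop
      exact this.aestronglyMeasurable
    · exact ae_of_all _ fun s _ => by rw [Real.norm_eq_abs]; exact h.abs_term_le k _
    · exact ae_of_all _ fun s _ => summable_half
    · exact intervalIntegrable_const
    · exact ae_of_all _ fun s _ => (h.summable_term _).hasSum
  simp only [integral_term] at h1
  have h2 : (∫ s in (0:ℝ)..t, alphaM a x (nilflow (a, 1, 0) s (pr v))) - t =
      ∫ s in (0:ℝ)..t, ∑' k, term a k (x k) (hmul v (expX (a, 1, 0) s)) := by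
    have h3 : Continuous fun s : ℝ => alphaM a x (nilflow (a, 1, 0) s (pr v)) :=
      h.continuous_alpha.comp ((continuous_nilflow (a, 1, 0)).comp
        (by fun_prop : Continuous fun s : ℝ => (s, pr v)))
    have h4 : (t : ℝ) = ∫ s in (0:ℝ)..t, (1:ℝ) := by simp
    nth_rewrite 2 [h4]
    rw [← intervalIntegral.integral_sub (h3.intervalIntegrable _ _) intervalIntegrable_const]
    refine intervalIntegral.integral_congr fun s _ => ?_
    simp only [nilflow, rt_pr, alphaM_pr, alphaV]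
    ring
  rw [h2]
  exact h1

end Pool.Agent.V5helper22.HeisNil
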