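import Pool.Agent.V5helper22.HeisAlpha

/-!
# Distribution of the frequencies and the eigenfunction of the time-change
-/

namespace Pool.Agent.V5helper22.HeisNil

open MeasureTheory Set Filter Topology
open scoped ENNReal ContDiff

variable {a : ℝ} {x : ℕ → ℤ × ℤ}

/-! ### Distribution of the frequencies -/

/-- the fractional part of `χ_k` -/
noncomputable def cfrac (x : ℕ → ℤ × ℤ) (k : ℕ) : M → ℝ :=
  Quotient.lift (fun v => Int.fract (chi x k v)) (by
    rintro v w ⟨g, rfl⟩
    change Int.fract (chi x k (g • w)) = Int.fract (chi x k w)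
    rw [chi_smul, Int.fract_add_intCast])

@[simp] lemma cfrac_pr (x : ℕ → ℤ × ℤ) (k : ℕ) (v : V) :
    cfrac x k (pr v) = Int.fract (chi x k v) := rfl

lemma continuous_chi (x : ℕ → ℤ × ℤ) (k : ℕ) : Continuous (chi x k) := by
  unfold chi; fun_prop

lemma measurable_cfrac (x : ℕ → ℤ × ℤ) (k : ℕ) : Measurable (cfrac x k) :=
  measurable_from_quotient.2 ((continuous_chi x k).measurable.fract)

/-- the frequencies are uniformly distributed -/
lemma lintegral_cfrac (x : ℕ → ℤ × ℤ) (k : ℕ) (hx : (x k).1 ≠ 0) (g : ℝ → ℝ≥0∞)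
    (hg : Measurable g) (hp : ∀ y, g (y + 1) = g y) :
    ∫⁻ p, g (cfrac x k p) ∂haarM = ∫⁻ y in Ico (0:ℝ) 1, g y := by
  have hpz : ∀ (y : ℝ) (n : ℤ), g (y + n) = g y := by
    intro y n
    have : Function.Periodic g 1 := hp
    simpa using this.zsmul n y
  have hgf : ∀ y, g (Int.fract y) = g y := by
    intro y
    have := hpz (Int.fract y) ⌊y⌋
    rwa [Int.fract_add_floor, eq_comm] at this
  have hx' : ((x k).1 : ℝ) ≠ 0 := by exact_mod_cast hx
  have h1 : ∀ θ : ℝ, ∫⁻ p, g (cfrac x k p + θ) ∂haarM = ∫⁻ p, g (cfrac x k p) ∂haarM := by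
    intro θ
    have h0 := (measurePreserving_rt (θ / (x k).1, 0, 0)).lintegral_comp
      (f := fun p => g (cfrac x k p)) (hg.comp (measurable_cfrac x k))
    rw [← h0]
    refine lintegral_congr fun p => ?_
    obtain ⟨v, rfl⟩ := pr_surjective p
    simp only [rt_pr, cfrac_pr]
    rw [hgf]
    have h2 : chi x k (hmul v (θ / (x k).1, 0, 0)) = chi x k v + θ := by
      simp only [chi, hmul]; field_simp; ring
    rw [h2, ← hpz (Int.fract (chi x k v) + θ) ⌊chi x k v⌋]
    congr 1
    have := Int.fract_add_floor (chi x k v)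
    linarith
  have h2 : ∫⁻ θ in Ico (0:ℝ) 1, (∫⁻ p, g (cfrac x k p + θ) ∂haarM) =
      ∫⁻ p, g (cfrac x k p) ∂haarM := by
    simp only [h1]
    simp
  rw [← h2, lintegral_lintegral_swap]
  · have h3 : ∀ p, ∫⁻ θ in Ico (0:ℝ) 1, g (cfrac x k p + θ) = ∫⁻ y in Ico (0:ℝ) 1, g y := by
      intro p
      rw [← lintegral_periodic_shift g hp (cfrac x k p)]
      refine lintegral_congr fun y => by rw [add_comm]
    simp only [h3]
    simp
  · refine (hg.comp ?_).aemeasurable
    exact ((measurable_cfrac x k).comp measurable_snd).add measurable_fst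

lemma measure_cfrac (x : ℕ → ℤ × ℤ) (k : ℕ) (hx : (x k).1 ≠ 0) (S : Set ℝ)
    (hS : MeasurableSet S) :
    haarM {p | cfrac x k p ∈ S} = volume (S ∩ Ico (0:ℝ) 1) := by
  have h := lintegral_cfrac x k hx (fun y => S.indicator 1 (Int.fract y))
    ((measurable_one.indicator hS).comp measurable_fract) (fun y => by simp only [Int.fract_add_one])
  have h1 : ∀ p, S.indicator (1 : ℝ → ℝ≥0∞) (Int.fract (cfrac x k p)) =
      {p | cfrac x k p ∈ S}.indicator 1 p := by
    intro p
    obtain ⟨v, rfl⟩ := pr_surjective p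
    simp only [cfrac_pr, Int.fract_fract]
    rfl
  simp only [h1] at h
  rw [lintegral_indicator_one (show MeasurableSet {p | cfrac x k p ∈ S} from
    measurable_cfrac x k hS)] at h
  rw [h]
  have h2 : ∫⁻ y in Ico (0:ℝ) 1, S.indicator 1 (Int.fract y) =
      ∫⁻ y in Ico (0:ℝ) 1, S.indicator 1 y := by
    refine setLIntegral_congr_fun measurableSet_Ico fun y hy => ?_
    rw [Int.fract_eq_self.2 ⟨hy.1, hy.2⟩]
  rw [h2, lintegral_indicator_one hS, Measure.restrict_apply hS]

/-! ### The eigenfunction -/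

/-- the partial products of the eigenfunction, on the group -/
noncomputable def eigV (x : ℕ → ℤ × ℤ) (n : ℕ) (v : V) : ℂ :=
  ee (v.2.1 + ∑ k ∈ Finset.range n, 10 ^ k * stair (dl k) (chi x k v))

lemma ee_add_int (y : ℝ) (n : ℤ) : ee (y + n) = ee y := by
  rw [ee_add, ee_intCast, mul_one]

lemma eigV_smul (x : ℕ → ℤ × ℤ) (n : ℕ) (g : Gam) (v : V) : eigV x n (g • v) = eigV x n v := by
  have h : (g • v).2.1 + ∑ k ∈ Finset.range n, 10 ^ k * stair (dl k) (chi x k (g • v)) =
      (v.2.1 + ∑ k ∈ Finset.range n, 10 ^ k * stair (dl k) (chi x k v)) +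
      ((g.m + ∑ k ∈ Finset.range n, 10 ^ k * ((x k).1 * g.l - (x k).2 * g.m) : ℤ) : ℝ) := by
    have h1 : ∀ k, (10:ℝ) ^ k * stair (dl k) (chi x k (g • v)) =
        10 ^ k * stair (dl k) (chi x k v) +
          ((10 ^ k * ((x k).1 * g.l - (x k).2 * g.m) : ℤ) : ℝ) := by
      intro k
      rw [chi_smul, stair_add_int]; push_cast; ring
    simp only [h1]
    rw [Finset.sum_add_distrib]
    have h2 : (g • v).2.1 = g.m + v.2.1 := rfl
    rw [h2]
    push_cast
    ring
  rw [eigV, h, ee_add_int, eigV]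

/-- the partial products of the eigenfunction -/
noncomputable def eig (x : ℕ → ℤ × ℤ) (n : ℕ) : M → ℂ :=
  Quotient.lift (eigV x n) (by
    rintro v w ⟨g, rfl⟩
    exact eigV_smul x n g w)

@[simp] lemma eig_pr (x : ℕ → ℤ × ℤ) (n : ℕ) (v : V) : eig x n (pr v) = eigV x n v := rfl

lemma continuous_eig (x : ℕ → ℤ × ℤ) (n : ℕ) : Continuous (eig x n) := by
  refine isOpenQuotientMap_pr.isQuotientMap.continuous_iff.2 ?_
  change Continuous (eigV x n)
  refine continuous_ee.comp (Continuous.add (by fun_prop) ?_)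
  refine continuous_finsetSum _ fun k _ => continuous_const.mul ?_
  exact (stair_contDiff (dl_pos k) (dl_lt_one k)).continuous.comp (continuous_chi x k)

lemma norm_eig (x : ℕ → ℤ × ℤ) (n : ℕ) (p : M) : ‖eig x n p‖ = 1 := by
  obtain ⟨v, rfl⟩ := pr_surjective p
  exact norm_ee _

/-- almost surely the partial products converge (they are eventually constant) -/
lemma IsSeq.ae_tendsto_eig (h : IsSeq a x) :
    ∀ᵐ p ∂haarM, ∃ z, Tendsto (fun n => eig x n p) atTop (𝓝 z) := by
  have h1 : ∀ k, haarM {p | cfrac x k p ∈ Iio (dl k)} ≤ ENNReal.ofReal (dl k) := by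
    intro k
    rw [measure_cfrac x k (h.ne k) _ measurableSet_Iio]
    have : Iio (dl k) ∩ Ico (0:ℝ) 1 ⊆ Ico 0 (dl k) := fun y hy => ⟨hy.2.1, hy.1⟩
    refine (measure_mono this).trans ?_
    rw [Real.volume_Ico, sub_zero]
  have h2 : ∑' k, haarM {p | cfrac x k p ∈ Iio (dl k)} ≠ ⊤ := by
    have h3 : Summable dl := by
      unfold dl
      have := (summable_geometric_two).mul_left ((1/2:ℝ)^3)
      refine this.congr fun k => ?_
      rw [pow_add]; ring
    have h4 : ∑' k, ENNReal.ofReal (dl k) ≠ ⊤ := by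
      rw [← ENNReal.ofReal_tsum_of_nonneg (fun k => (dl_pos k).le) h3]
      exact ENNReal.ofReal_ne_top
    exact ne_top_of_le_ne_top h4 (ENNReal.tsum_le_tsum h1)
  filter_upwards [ae_eventually_notMem h2] with p hp
  obtain ⟨v, rfl⟩ := pr_surjective p
  obtain ⟨N, hN⟩ := eventually_atTop.1 hp
  refine ⟨eig x N (pr v), tendsto_const_nhds.congr' ?_⟩
  filter_upwards [eventually_ge_atTop N] with n hn
  induction n, hn using Nat.le_induction with
  | base => rfl
  | succ n hn ih =>
    rw [ih]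
    simp only [eig_pr, eigV]
    rw [Finset.sum_range_succ, ← add_assoc]
    have h5 := hN n hn
    simp only [mem_Iio, cfrac_pr, not_lt] at h5
    rw [stair_of_good (dl_pos n) h5]
    have h6 : (10:ℝ) ^ n * (⌊chi x n v⌋ + 1) = ((10 ^ n * (⌊chi x n v⌋ + 1) : ℤ) : ℝ) := by
      push_cast; ring
    rw [h6, ee_add_int]

lemma eigV_flow (a : ℝ) (x : ℕ → ℤ × ℤ) (n : ℕ) (v : V) (t : ℝ) :
    eigV x n (hmul v (expX (a, 1, 0) t)) =
      eigV x n v * ee (t + ∑ k ∈ Finset.range n, incr a x k v t) := by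
  rw [eigV, eigV, ← ee_add]
  congr 1
  simp only [chi_flow, incr, mul_sub, Finset.sum_sub_distrib]
  simp only [hmul, expX]
  ring

lemma IsSeq.tendsto_flow (h : IsSeq a x) (p : M) (t : ℝ) (z : ℂ)
    (hz : Tendsto (fun n => eig x n p) atTop (𝓝 z)) :
    Tendsto (fun n => eig x n (nilflow (a, 1, 0) t p)) atTop
      (𝓝 (z * ee (∫ s in (0:ℝ)..t, alphaM a x (nilflow (a, 1, 0) s p)))) := by
  obtain ⟨v, rfl⟩ := pr_surjective p
  simp only [nilflow, rt_pr, eig_pr, eigV_flow]
  refine hz.mul ?_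
  have h1 := (h.hasSum_incr v t).tendsto_sum_nat
  have h2 := (continuous_ee.tendsto _).comp (h1.const_add t)
  simp only [Function.comp_def, add_sub_cancel] at h2
  exact h2

end Pool.Agent.V5helper22.HeisNil
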