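import Mathlib

/-!
# The Heisenberg nilmanifold: definitions, topology, Haar measure
-/

namespace Pool.Agent.V5helper22.HeisNil

open MeasureTheory Set Filter Topology
open scoped ENNReal

/-- The underlying space of the real Heisenberg group: `(x, y, z)` stands for the unipotent matrix
with rows `(1, x, z)`, `(0, 1, y)`, `(0, 0, 1)`. -/
abbrev V : Type := ℝ × ℝ × ℝ

/-- Multiplication of the Heisenberg group in these coordinates. -/
def hmul (g h : V) : V := (g.1 + h.1, g.2.1 + h.2.1, g.2.2 + h.2.2 + g.1 * h.2.1)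

/-- The matrix of a point. -/
def toMatrix (g : V) : Matrix (Fin 3) (Fin 3) ℝ := !![1, g.1, g.2.2; 0, 1, g.2.1; 0, 0, 1]

/-- `hmul` is matrix multiplication. -/
lemma toMatrix_hmul (g h : V) : toMatrix (hmul g h) = toMatrix g * toMatrix h := by
  ext i j
  fin_cases i <;> fin_cases j <;>
    simp [toMatrix, hmul, Matrix.mul_apply, Fin.sum_univ_three] <;> ring

lemma hmul_assoc (g h k : V) : hmul (hmul g h) k = hmul g (hmul h k) := by
  simp only [hmul, Prod.mk.injEq]
  refine ⟨by ring, by ring, by ring⟩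

/-- The lattice `Γ` of integer points of the Heisenberg group. -/
@[ext] structure Gam where
  /-- first coordinate -/
  l : ℤ
  /-- second coordinate -/
  m : ℤ
  /-- third coordinate -/
  n : ℤ

namespace Gam

instance : Mul Gam := ⟨fun g h => ⟨g.l + h.l, g.m + h.m, g.n + h.n + g.l * h.m⟩⟩
instance : One Gam := ⟨⟨0, 0, 0⟩⟩
instance : Inv Gam := ⟨fun g => ⟨-g.l, -g.m, -g.n + g.l * g.m⟩⟩

@[simp] lemma mul_l (g h : Gam) : (g * h).l = g.l + h.l := rfl
@[simp] lemma mul_m (g h : Gam) : (g * h).m = g.m + h.m := rfl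
@[simp] lemma mul_n (g h : Gam) : (g * h).n = g.n + h.n + g.l * h.m := rfl
@[simp] lemma one_l : (1 : Gam).l = 0 := rfl
@[simp] lemma one_m : (1 : Gam).m = 0 := rfl
@[simp] lemma one_n : (1 : Gam).n = 0 := rfl
@[simp] lemma inv_l (g : Gam) : (g⁻¹).l = -g.l := rfl
@[simp] lemma inv_m (g : Gam) : (g⁻¹).m = -g.m := rfl
@[simp] lemma inv_n (g : Gam) : (g⁻¹).n = -g.n + g.l * g.m := rfl

instance : Group Gam where
  mul_assoc a b c := by ext <;> simp <;> ring
  one_mul a := by ext <;> simp
  mul_one a := by ext <;> simp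
  inv_mul_cancel a := by ext <;> simp

instance : Countable Gam :=
  Function.Injective.countable (f := fun g : Gam => (g.l, g.m, g.n)) (by
    intro a b h; simp only [Prod.mk.injEq] at h; ext <;> simp [h])

/-- The real point of an integer point. -/
def toV (g : Gam) : V := ((g.l : ℝ), (g.m : ℝ), (g.n : ℝ))

end Gam

/-- `Γ` acts on the Heisenberg group by left multiplication. -/
instance : MulAction Gam V where
  smul g v := hmul g.toV v
  one_smul v := by
    change hmul (Gam.toV 1) v = v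
    simp [hmul, Gam.toV]
  mul_smul g h v := by
    change hmul (Gam.toV (g * h)) v = hmul g.toV (hmul h.toV v)
    simp only [hmul, Gam.toV, Gam.mul_l, Gam.mul_m, Gam.mul_n, Prod.mk.injEq]
    push_cast
    refine ⟨by ring, by ring, by ring⟩

lemma smul_def (g : Gam) (v : V) : g • v = hmul g.toV v := rfl

/-- The Heisenberg nilmanifold `M = Γ \ G`, with the quotient topology and the quotient
`σ`-algebra (which is the Borel one, see `borelM` below). -/
abbrev M : Type := MulAction.orbitRel.Quotient Gam V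

/-- The projection `G → Γ \ G`. -/
def pr (v : V) : M := Quotient.mk _ v

lemma pr_smul (g : Gam) (v : V) : pr (g • v) = pr v := Quotient.sound ⟨g, rfl⟩

lemma pr_eq_iff {v w : V} : pr v = pr w ↔ ∃ g : Gam, g • w = v := by
  unfold pr
  rw [Quotient.eq]
  exact Iff.rfl

/-- The right translation `Γ g ↦ Γ g h` of `M`. -/
def rt (h : V) : M → M := Quotient.map (fun v => hmul v h) (by
  rintro v w ⟨g, rfl⟩
  exact ⟨g, by
    change hmul g.toV (hmul w h) = hmul (hmul g.toV w) h
    rw [hmul_assoc]⟩)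

@[simp] lemma rt_pr (h v : V) : rt h (pr v) = pr (hmul v h) := rfl

lemma pr_surjective : Function.Surjective pr := Quotient.mk_surjective

lemma rt_rt (g h : V) (p : M) : rt h (rt g p) = rt (hmul g h) p := by
  obtain ⟨v, rfl⟩ := pr_surjective p
  simp [hmul_assoc]

/-- The normalised Haar measure of `M`: the image of Lebesgue measure on the unit cube. It is
shown below to be a probability measure invariant under all right translations. -/
noncomputable def haarM : Measure M :=
  ((volume : Measure V).restrict (Ico (0:ℝ) 1 ×ˢ Ico (0:ℝ) 1 ×ˢ Ico (0:ℝ) 1)).map pr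

/-! ### Topology -/

lemma continuous_hmul : Continuous fun p : V × V => hmul p.1 p.2 := by
  unfold hmul; fun_prop

instance : ContinuousConstSMul Gam V where
  continuous_const_smul g := by
    change Continuous fun v => hmul g.toV v
    exact continuous_hmul.comp (continuous_const.prodMk continuous_id)

instance : ProperlyDiscontinuousSMul Gam V where
  finite_disjoint_inter_image := by
    intro K L hK hL
    obtain ⟨R, hR⟩ := hK.isBounded.exists_norm_le
    obtain ⟨S, hS⟩ := hL.isBounded.exists_norm_le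
    set T : ℝ := max (max R S) 0 with hT
    have hT0 : 0 ≤ T := le_max_right _ _
    obtain ⟨B, hB⟩ : ∃ B : ℕ, 2 * T + T + 2 * T * T ≤ B := exists_nat_ge _
    have hfin : (Icc (-(B:ℤ)) B ×ˢ Icc (-(B:ℤ)) B ×ˢ Icc (-(B:ℤ)) B :
        Set (ℤ × ℤ × ℤ)).Finite :=
      (finite_Icc _ _).prod ((finite_Icc _ _).prod (finite_Icc _ _))
    refine Set.Finite.subset (hfin.image (fun t : ℤ × ℤ × ℤ => (⟨t.1, t.2.1, t.2.2⟩ : Gam))) ?_
    rintro g hg
    obtain ⟨w, ⟨v, hv, rfl⟩, hw⟩ := hg
    have h1 := hR v hv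
    have h2 := hS _ hw
    simp only [smul_def, hmul, Gam.toV] at h2
    have h1' : ‖v‖ ≤ T := h1.trans ((le_max_left _ _).trans (le_max_left _ _))
    have h2' := h2.trans ((le_max_right R S).trans (le_max_left _ (0:ℝ)))
    rw [← hT] at h2'
    simp only [Prod.norm_def, Real.norm_eq_abs, max_le_iff, abs_le] at h1' h2'
    obtain ⟨⟨a1, a2⟩, ⟨a3, a4⟩, a5, a6⟩ := h1'
    obtain ⟨⟨b1, b2⟩, ⟨b3, b4⟩, b5, b6⟩ := h2'
    have c1 : |(g.l : ℝ)| ≤ 2 * T := by rw [abs_le]; constructor <;> linarith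
    have c2 : |(g.m : ℝ)| ≤ 2 * T := by rw [abs_le]; constructor <;> linarith
    have c3 : |(g.l : ℝ) * v.2.1| ≤ 2 * T * T := by
      rw [abs_mul]
      exact mul_le_mul c1 (abs_le.2 ⟨a3, a4⟩) (abs_nonneg _) (by positivity)
    rw [abs_le] at c3
    have c4 : |(g.n : ℝ)| ≤ B := by rw [abs_le]; constructor <;> nlinarith
    have hTT : 0 ≤ T * T := by positivity
    have c1' : |(g.l : ℝ)| ≤ B := by nlinarith
    have c2' : |(g.m : ℝ)| ≤ B := by nlinarith
    rw [abs_le] at c1' c2' c4
    refine ⟨(g.l, g.m, g.n), ?_, rfl⟩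
    simp only [mem_prod, mem_Icc]
    exact ⟨⟨by exact_mod_cast c1'.1, by exact_mod_cast c1'.2⟩,
      ⟨by exact_mod_cast c2'.1, by exact_mod_cast c2'.2⟩,
      by exact_mod_cast c4.1, by exact_mod_cast c4.2⟩

instance : T2Space M := t2Space_of_properlyDiscontinuousSMul_of_t2Space

instance : SecondCountableTopology M := ContinuousConstSMul.secondCountableTopology

/-- The `σ`-algebra of `M` is the Borel `σ`-algebra of the quotient topology. -/
instance borelM : BorelSpace M := Quotient.borelSpace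

lemma continuous_pr : Continuous pr := continuous_quotient_mk'

lemma isOpenMap_pr : IsOpenMap pr := isOpenMap_quotient_mk'_mul

lemma isOpenQuotientMap_pr : IsOpenQuotientMap pr :=
  ⟨pr_surjective, continuous_pr, isOpenMap_pr⟩

/-- every point has a representative in the unit cube -/
lemma exists_cube (p : M) : ∃ v : V, v ∈ (Ico (0:ℝ) 1 ×ˢ Ico (0:ℝ) 1 ×ˢ Ico (0:ℝ) 1 : Set V) ∧
    pr v = p := by
  obtain ⟨v, rfl⟩ := pr_surjective p
  set w : V := (⟨0, 0, -⌊v.2.2 - ⌊v.1⌋ * v.2.1⌋⟩ : Gam) • ((⟨0, -⌊v.2.1⌋, 0⟩ : Gam) •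
    ((⟨-⌊v.1⌋, 0, 0⟩ : Gam) • v)) with hw
  refine ⟨w, ?_, by rw [hw]; simp only [pr_smul]⟩
  have h1 : w = (Int.fract v.1, Int.fract v.2.1, Int.fract (v.2.2 - ⌊v.1⌋ * v.2.1)) := by
    rw [hw]
    simp only [smul_def, hmul, Gam.toV, Prod.mk.injEq, Int.fract]
    push_cast
    refine ⟨by ring, by ring, by ring⟩
  rw [h1]
  exact ⟨⟨Int.fract_nonneg _, Int.fract_lt_one _⟩, ⟨Int.fract_nonneg _, Int.fract_lt_one _⟩,
    Int.fract_nonneg _, Int.fract_lt_one _⟩

instance : CompactSpace M := by
  refine ⟨?_⟩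
  have hK : IsCompact (Icc (0:ℝ) 1 ×ˢ Icc (0:ℝ) 1 ×ˢ Icc (0:ℝ) 1 : Set V) :=
    isCompact_Icc.prod (isCompact_Icc.prod isCompact_Icc)
  have : pr '' (Icc (0:ℝ) 1 ×ˢ Icc (0:ℝ) 1 ×ˢ Icc (0:ℝ) 1 : Set V) = univ := by
    refine eq_univ_of_forall fun p => ?_
    obtain ⟨v, hv, hp⟩ := exists_cube p
    exact ⟨v, ⟨Ico_subset_Icc_self hv.1, Ico_subset_Icc_self hv.2.1,
      Ico_subset_Icc_self hv.2.2⟩, hp⟩
  rw [← this]
  exact hK.image continuous_pr

instance : TopologicalSpace.MetrizableSpace M := inferInstance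

/-- right translation is jointly continuous -/
lemma continuous_rt : Continuous fun x : V × M => rt x.1 x.2 := by
  have h : IsOpenQuotientMap (Prod.map (id : V → V) pr) :=
    IsOpenQuotientMap.id.prodMap isOpenQuotientMap_pr
  rw [h.isQuotientMap.continuous_iff]
  change Continuous fun x : V × V => pr (hmul x.2 x.1)
  exact continuous_pr.comp (continuous_hmul.comp (continuous_snd.prodMk continuous_fst))

lemma continuous_rt_const (h : V) : Continuous (rt h) :=
  continuous_rt.comp (continuous_const.prodMk continuous_id)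

lemma measurable_rt (h : V) : Measurable (rt h) := (continuous_rt_const h).measurable

/-! ### Haar measure -/

/-- the integral of a `1`-periodic function over a period does not change under shifts -/
lemma lintegral_periodic_shift (g : ℝ → ℝ≥0∞) (hg : ∀ x, g (x + 1) = g x) (h : ℝ) :
    ∫⁻ x in Ico (0:ℝ) 1, g (x + h) = ∫⁻ x in Ico (0:ℝ) 1, g x := by
  have hinv : VAddInvariantMeasure (AddSubgroup.zmultiples (1:ℝ)) ℝ volume :=
    ⟨fun c s _ => measure_preimage_add _ _ _⟩
  have h1 : ∫⁻ x in Ico (0:ℝ) 1, g (x + h) = ∫⁻ x in Ico h (h + 1), g x := by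
    have h2 := (measurePreserving_add_right (volume : Measure ℝ) h).setLIntegral_comp_preimage_emb
      (measurableEmbedding_addRight h) g (Ico h (h+1))
    have h3 : (fun x : ℝ => x + h) ⁻¹' Ico h (h + 1) = Ico 0 1 := by
      ext x; simp only [mem_preimage, mem_Ico]
      constructor <;> rintro ⟨h1, h2⟩ <;> constructor <;> linarith
    rw [h3] at h2
    exact h2
  rw [h1, restrict_Ico_eq_restrict_Ioc, restrict_Ico_eq_restrict_Ioc]
  have h4 := (isAddFundamentalDomain_Ioc (zero_lt_one) h (volume : Measure ℝ)).setLIntegral_eq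
    (isAddFundamentalDomain_Ioc (zero_lt_one) 0 (volume : Measure ℝ)) g (by
      rintro ⟨c, hc⟩ x
      obtain ⟨n, rfl⟩ := AddSubgroup.mem_zmultiples_iff.1 hc
      change g (n • (1:ℝ) + x) = g x
      have hp : Function.Periodic g 1 := hg
      rw [add_comm]
      exact hp.zsmul n x)
  simpa using h4

/-- The integral of a function on `M` in coordinates. -/
lemma lintegral_haarM (f : M → ℝ≥0∞) (hf : Measurable f) :
    ∫⁻ p, f p ∂haarM = ∫⁻ x in Ico (0:ℝ) 1, ∫⁻ y in Ico (0:ℝ) 1, ∫⁻ z in Ico (0:ℝ) 1,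
      f (pr (x, y, z)) := by
  have hfp : Measurable fun v : V => f (pr v) := hf.comp continuous_pr.measurable
  rw [haarM, lintegral_map hf continuous_pr.measurable]
  rw [Measure.volume_eq_prod, ← Measure.prod_restrict, lintegral_prod _ hfp.aemeasurable]
  refine lintegral_congr fun x => ?_
  rw [Measure.volume_eq_prod, ← Measure.prod_restrict, lintegral_prod]
  exact (hfp.comp (measurable_const.prodMk measurable_id)).aemeasurable

instance : IsProbabilityMeasure haarM := by
  refine ⟨?_⟩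
  have h := lintegral_haarM (fun _ => 1) measurable_const
  simpa using h

lemma pr_add_x (x y z : ℝ) : pr (x + 1, y, z + y) = pr (x, y, z) := by
  rw [pr_eq_iff]
  refine ⟨⟨1, 0, 0⟩, ?_⟩
  simp only [smul_def, hmul, Gam.toV, Prod.mk.injEq]; push_cast
  refine ⟨by ring, by ring, by ring⟩

lemma pr_add_y (x y z : ℝ) : pr (x, y + 1, z) = pr (x, y, z) := by
  rw [pr_eq_iff]
  refine ⟨⟨0, 1, 0⟩, ?_⟩
  simp only [smul_def, hmul, Gam.toV, Prod.mk.injEq]; push_cast
  refine ⟨by ring, by ring, by ring⟩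

lemma pr_add_z (x y z : ℝ) : pr (x, y, z + 1) = pr (x, y, z) := by
  rw [pr_eq_iff]
  refine ⟨⟨0, 0, 1⟩, ?_⟩
  simp only [smul_def, hmul, Gam.toV, Prod.mk.injEq]; push_cast
  refine ⟨by ring, by ring, by ring⟩

/-- `haarM` is invariant under all right translations. -/
lemma haarM_map_rt (h : V) : haarM.map (rt h) = haarM := by
  ext s hs
  have key : ∀ f : M → ℝ≥0∞, Measurable f → ∫⁻ p, f (rt h p) ∂haarM = ∫⁻ p, f p ∂haarM := by
    intro f hf
    rw [lintegral_haarM _ hf, lintegral_haarM (fun p => f (rt h p)) (hf.comp (measurable_rt h))]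
    set G : ℝ → ℝ → ℝ≥0∞ := fun x y => ∫⁻ z in Ico (0:ℝ) 1, f (pr (x, y, z)) with hG
    have hGz : ∀ x y c : ℝ, ∫⁻ z in Ico (0:ℝ) 1, f (pr (x, y, z + c)) = G x y := fun x y c =>
      lintegral_periodic_shift (fun z => f (pr (x, y, z))) (fun z => by rw [pr_add_z]) c
    have hGy : ∀ x y : ℝ, G x (y + 1) = G x y := by
      intro x y
      simp only [hG, pr_add_y]
    have hGx : ∀ x y : ℝ, G (x + 1) y = G x y := by
      intro x y
      rw [← hGz (x + 1) y y]
      simp only [hG, pr_add_x]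
    have h1 : ∀ x y : ℝ, ∫⁻ z in Ico (0:ℝ) 1, (f ∘ rt h) (pr (x, y, z)) =
        G (x + h.1) (y + h.2.1) := by
      intro x y
      rw [← hGz (x + h.1) (y + h.2.1) (h.2.2 + x * h.2.1)]
      refine lintegral_congr fun z => ?_
      simp only [Function.comp, rt_pr, hmul]
      congr 2
      simp only [Prod.mk.injEq, true_and]
      ring
    change ∫⁻ x in Ico (0:ℝ) 1, ∫⁻ y in Ico (0:ℝ) 1, ∫⁻ z in Ico (0:ℝ) 1,
      (f ∘ rt h) (pr (x, y, z)) = ∫⁻ x in Ico (0:ℝ) 1, ∫⁻ y in Ico (0:ℝ) 1, G x y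
    simp only [h1]
    rw [← lintegral_periodic_shift (fun x => ∫⁻ y in Ico (0:ℝ) 1, G x y)
      (fun x => by simp only [hGx]) h.1]
    refine lintegral_congr fun x => ?_
    exact lintegral_periodic_shift (fun y => G (x + h.1) y) (fun y => hGy _ _) h.2.1
  rw [Measure.map_apply (measurable_rt h) hs]
  have h2 := key (s.indicator 1) (measurable_one.indicator hs)
  rw [lintegral_indicator_one hs] at h2
  rw [← h2]
  have h3 : ∀ p, s.indicator (1 : M → ℝ≥0∞) (rt h p) = ((rt h) ⁻¹' s).indicator 1 p := by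
    intro p; rfl
  simp only [h3]
  rw [lintegral_indicator_one (measurable_rt h hs)]

lemma measurePreserving_rt (h : V) : MeasurePreserving (rt h) haarM haarM :=
  ⟨measurable_rt h, haarM_map_rt h⟩


/-! ### The character -/

/-- `ee x = exp (2 π i x)` -/
noncomputable def ee (x : ℝ) : ℂ := Complex.exp (2 * Real.pi * x * Complex.I)

lemma ee_add (x y : ℝ) : ee (x + y) = ee x * ee y := by
  unfold ee; rw [← Complex.exp_add]; congr 1; push_cast; ring

@[simp] lemma ee_zero : ee 0 = 1 := by simp [ee]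

lemma ee_intCast (n : ℤ) : ee n = 1 := by
  unfold ee
  rw [Complex.exp_eq_one_iff]
  exact ⟨n, by push_cast; ring⟩

lemma norm_ee (x : ℝ) : ‖ee x‖ = 1 := by
  unfold ee
  rw [show (2 * Real.pi * x * Complex.I : ℂ) = ((2 * Real.pi * x : ℝ) : ℂ) * Complex.I by
    push_cast; ring]
  exact Complex.norm_exp_ofReal_mul_I _

lemma continuous_ee : Continuous ee := by
  unfold ee; fun_prop

lemma ee_half : ee (1/2) = -1 := by
  unfold ee
  rw [show (2 * Real.pi * ((1/2 : ℝ) : ℂ) * Complex.I : ℂ) = Real.pi * Complex.I by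
    push_cast; ring]
  exact Complex.exp_pi_mul_I

lemma ee_neg_mul (x : ℝ) : ee (-x) * ee x = 1 := by
  rw [← ee_add]; simp

lemma star_ee (x : ℝ) : star (ee x) = ee (-x) := by
  unfold ee
  rw [Complex.star_def, ← Complex.exp_conj,
    show (2 * Real.pi * x * Complex.I : ℂ) = ((2 * Real.pi * x : ℝ) : ℂ) * Complex.I by
      push_cast; ring, map_mul, Complex.conj_ofReal, Complex.conj_I]
  congr 1
  push_cast
  ring

/-! ### Periodic functions -/

/-- a continuous periodic function all of whose nonzero Fourier coefficients vanish is constant -/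
lemma const_of_fourier (g : ℝ → ℂ) (hg : Continuous g) (hp : Function.Periodic g 1)
    (h0 : ∀ n : ℤ, n ≠ 0 → ∫ x in (0:ℝ)..1, ee (-(n * x)) * g x = 0) :
    g 0 = ∫ x in (0:ℝ)..1, g x := by
  have : Fact ((0:ℝ) < 1) := ⟨one_pos⟩
  have hGc : Continuous hp.lift := by
    refine continuous_coinduced_dom.2 ?_
    exact hg
  let G : C(AddCircle (1:ℝ), ℂ) := ⟨hp.lift, hGc⟩
  have hG : ∀ x : ℝ, G (x : AddCircle (1:ℝ)) = g x := fun x => hp.lift_coe x
  have hc : ∀ n : ℤ, fourierCoeff G n = ∫ x in (0:ℝ)..1, ee (-(n * x)) * g x := by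
    intro n
    rw [fourierCoeff_eq_intervalIntegral (G : AddCircle (1:ℝ) → ℂ) n 0]
    simp only [zero_add, div_one, one_smul]
    refine intervalIntegral.integral_congr fun x _ => ?_
    simp only [smul_eq_mul]
    rw [hG, fourier_coe_apply]
    congr 1
    unfold ee
    congr 1
    push_cast
    ring
  have hs : Summable (fourierCoeff G) := by
    refine summable_of_ne_finset_zero (s := {0}) fun n hn => ?_
    rw [hc, h0 n (by simpa using hn)]
  have h1 := has_pointwise_sum_fourier_series_of_summable hs ((0:ℝ) : AddCircle (1:ℝ))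
  rw [hG] at h1
  have h2 : HasSum (fun i => fourierCoeff G i • fourier i ((0:ℝ) : AddCircle (1:ℝ)))
      (fourierCoeff G 0 • fourier 0 ((0:ℝ) : AddCircle (1:ℝ))) := by
    refine hasSum_single 0 fun n hn => ?_
    rw [hc, h0 n hn, zero_smul]
  rw [h1.unique h2, hc]
  simp

lemma integral_periodic_shift (g : ℝ → ℂ) (hp : Function.Periodic g 1) (c : ℝ) :
    ∫ x in (0:ℝ)..1, g (c + x) = ∫ x in (0:ℝ)..1, g x := by
  rw [intervalIntegral.integral_comp_add_left (fun x => g x) c]
  have := hp.intervalIntegral_add_eq c 0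
  simpa using this

/-- interchange of an integral over `[0,1]` and an integral over `M` -/
lemma swap (ν : Measure M) [IsFiniteMeasure ν] (H : ℝ → M → ℂ)
    (hH : Continuous (Function.uncurry H)) :
    ∫ s in (0:ℝ)..1, (∫ p, H s p ∂ν) = ∫ p, (∫ s in (0:ℝ)..1, H s p) ∂ν := by
  refine intervalIntegral_integral_swap ?_
  have hfin : IsFiniteMeasure (volume.restrict (uIoc (0:ℝ) 1)) := by
    refine ⟨?_⟩
    rw [Measure.restrict_apply_univ, uIoc_of_le zero_le_one, Real.volume_Ioc]
    exact ENNReal.ofReal_lt_top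
  have hc : IsCompact (Icc (0:ℝ) 1 ×ˢ (univ : Set M)) := isCompact_Icc.prod isCompact_univ
  obtain ⟨C, hC⟩ := hc.exists_bound_of_continuousOn hH.continuousOn
  refine Integrable.of_bound (C := C) hH.aestronglyMeasurable ?_
  have h1 : ((volume.restrict (uIoc (0:ℝ) 1)).prod ν) =
      (volume.prod ν).restrict (uIoc (0:ℝ) 1 ×ˢ univ) := by
    rw [← Measure.prod_restrict, Measure.restrict_univ]
  rw [h1]
  refine (ae_restrict_mem (measurableSet_uIoc.prod MeasurableSet.univ)).mono fun x hx => ?_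
  refine hC x ⟨?_, hx.2⟩
  have := hx.1
  rw [uIoc_of_le zero_le_one] at this
  exact Ioc_subset_Icc_self this

/-- a continuous function on `ℝ` with the periods `1` and an irrational `a` is constant -/
lemma const_of_periods (f : ℝ → ℂ) (hf : Continuous f) (a : ℝ) (ha : Irrational a)
    (h1 : ∀ s, f (s + 1) = f s) (h2 : ∀ s, f (s + a) = f s) (s : ℝ) : f s = f 0 := by
  have hd : Dense (AddSubgroup.closure {a, 1} : Set ℝ) := by
    rw [dense_addSubgroupClosure_pair_iff]; simpa using ha
  have hsub : (AddSubgroup.closure {a, 1} : Set ℝ) ⊆ {c | ∀ s, f (s + c) = f s} := by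
    intro c hc
    refine AddSubgroup.closure_induction (p := fun c _ => ∀ s, f (s + c) = f s) ?_ ?_ ?_ ?_ hc
    · rintro x (rfl | rfl)
      · exact h2
      · exact h1
    · intro s; simp
    · intro x y _ _ hx hy s
      rw [← add_assoc, hy, hx]
    · intro x _ hx s
      have := hx (s + -x)
      simp only [neg_add_cancel_right] at this
      exact this.symm
  have hcl : IsClosed {c : ℝ | ∀ s, f (s + c) = f s} := by
    simp only [ofPred_forall]
    exact isClosed_iInter fun s => isClosed_eq (by fun_prop) continuous_const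
  have : s ∈ {c : ℝ | ∀ s, f (s + c) = f s} :=
    hcl.closure_subset_iff.2 hsub (hd s)
  simpa using this 0

/-! ### Nilflows and unique ergodicity -/

/-- `exp (t X)` for the element `X = (u, v, w)` of the Lie algebra, which stands for the matrix
`u E₁₂ + v E₂₃ + w E₁₃`. -/
noncomputable def expX (X : V) (t : ℝ) : V :=
  (t * X.1, t * X.2.1, t * X.2.2 + t ^ 2 * X.1 * X.2.1 / 2)

/-- The nilflow `φ_t (Γ g) = Γ g exp (t X)`. -/
noncomputable def nilflow (X : V) (t : ℝ) : M → M := rt (expX X t)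

/-- `φ` preserves `μ`, and `μ` is the only Borel probability measure it preserves. -/
def UniquelyErgodic (φ : ℝ → M → M) (μ : Measure M) : Prop :=
  (∀ t, μ.map (φ t) = μ) ∧
    ∀ ν : Measure M, IsProbabilityMeasure ν → (∀ t, ν.map (φ t) = ν) → ν = μ

lemma continuous_nilflow (X : V) : Continuous fun q : ℝ × M => nilflow X q.1 q.2 := by
  unfold nilflow
  have h : Continuous fun q : ℝ × M => (expX X q.1, q.2) := by
    unfold expX
    fun_prop
  exact continuous_rt.comp h

lemma integral_comp_inv {ν : Measure M} (g : M → M) (hg : Continuous g)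
    (hν : ν.map g = ν) (F : M → ℂ) (hF : Continuous F) :
    ∫ p, F (g p) ∂ν = ∫ p, F p ∂ν := by
  conv_rhs => rw [← hν]
  rw [integral_map hg.aemeasurable hF.aestronglyMeasurable]

/-- Functions that are invariant under the central direction. -/
lemma integral_base {a : ℝ} (ha : Irrational a) {ν : Measure M} [IsProbabilityMeasure ν]
    (hν : ∀ t, ν.map (nilflow (a, 1, 0) t) = ν) (G : M → ℂ) (hG : Continuous G)
    (hR : ∀ c p, G (rt (0, 0, c) p) = G p) :
    ∫ p, G p ∂ν = ∫ s in (0:ℝ)..1, (∫ r in (0:ℝ)..1, G (pr (s, r, 0))) := by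
  have hz : ∀ x y z : ℝ, G (pr (x, y, z)) = G (pr (x, y, 0)) := by
    intro x y z
    rw [← hR z (pr (x, y, 0))]
    simp [hmul]
  have hrt : ∀ (s r c : ℝ) (p : M), G (rt (s, r, c) p) = G (rt (s, r, 0) p) := by
    intro s r c p
    rw [← hR c (rt (s, r, 0) p), rt_rt]
    simp [hmul]
  set g : ℝ → ℝ → ℂ := fun x y => G (pr (x, y, 0)) with hg
  have hgx : ∀ x y, g (x + 1) y = g x y := by
    intro x y
    simp only [hg]
    rw [← hz (x + 1) y (0 + y), pr_add_x]
  have hgy : ∀ x y, g x (y + 1) = g x y := by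
    intro x y
    simp only [hg]
    rw [pr_add_y]
  have hcont : Continuous fun q : (ℝ × ℝ) × M => G (rt (q.1.1, q.1.2, 0) q.2) :=
    hG.comp (continuous_rt.comp
      (by fun_prop : Continuous fun q : (ℝ × ℝ) × M => (((q.1.1, q.1.2, 0) : V), q.2)))
  set Ψ : ℝ → ℝ → ℂ := fun s r => ∫ p, G (rt (s, r, 0) p) ∂ν with hΨ
  have hΨc : Continuous (fun q : ℝ × ℝ => Ψ q.1 q.2) := by
    have := continuous_parametric_integral_of_continuous (μ := ν)
      (f := fun (q : ℝ × ℝ) (p : M) => G (rt (q.1, q.2, 0) p)) hcont isCompact_univ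
    simpa [hΨ] using this
  -- invariance along the flow
  have h1 : ∀ s r t, Ψ (s + a * t) (r + t) = Ψ s r := by
    intro s r t
    have h2 := integral_comp_inv (nilflow (a, 1, 0) t)
      (continuous_rt_const _) (hν t)
      (fun p => G (rt (s, r, 0) p)) (hcont.comp (by fun_prop : Continuous fun p : M => ((s, r), p)))
    simp only [hΨ]
    rw [← h2]
    refine integral_congr_ae (ae_of_all _ fun p => ?_)
    simp only [nilflow, rt_rt]
    rw [← hrt _ _ (t ^ 2 * a / 2 + a * t * r) p]
    congr 2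
    simp only [expX, hmul, Prod.mk.injEq]
    refine ⟨by ring, by ring, by ring⟩
  have hx1 : ∀ s r, Ψ (s + 1) r = Ψ s r := by
    intro s r
    simp only [hΨ]
    refine integral_congr_ae (ae_of_all _ fun p => ?_)
    obtain ⟨⟨x, y, z⟩, rfl⟩ := pr_surjective p
    simp only [rt_pr, hmul]
    rw [hz, hz (x + s)]
    have := hgx (x + s) (y + r)
    rwa [add_assoc] at this
  have hy1 : ∀ s r, Ψ s (r + 1) = Ψ s r := by
    intro s r
    simp only [hΨ]
    refine integral_congr_ae (ae_of_all _ fun p => ?_)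
    obtain ⟨⟨x, y, z⟩, rfl⟩ := pr_surjective p
    simp only [rt_pr, hmul]
    rw [hz, hz _ (y + r)]
    have := hgy (x + s) (y + r)
    rwa [add_assoc] at this
  have hK0 : ∀ s, Ψ s 0 = Ψ 0 0 := by
    refine const_of_periods (fun s => Ψ s 0) (by fun_prop) a ha (fun s => hx1 s 0) fun s => ?_
    have := h1 s 0 1
    rw [hy1] at this
    simpa using this
  have hK : ∀ s r, Ψ s r = Ψ 0 0 := by
    intro s r
    have := h1 (s - a * r) 0 r
    rw [hK0] at this
    simpa using this
  have h00 : Ψ 0 0 = ∫ p, G p ∂ν := by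
    simp only [hΨ]
    refine integral_congr_ae (ae_of_all _ fun p => ?_)
    obtain ⟨⟨x, y, z⟩, rfl⟩ := pr_surjective p
    simp [hmul]
  rw [← h00]
  have h3 : Ψ 0 0 = ∫ s in (0:ℝ)..1, (∫ r in (0:ℝ)..1, Ψ s r) := by
    simp [hK]
  rw [h3]
  have h4 : ∀ s, ∫ r in (0:ℝ)..1, Ψ s r = ∫ p, (∫ r in (0:ℝ)..1, G (rt (s, r, 0) p)) ∂ν := by
    intro s
    exact swap ν (fun r p => G (rt (s, r, 0) p))
      (hcont.comp (by fun_prop : Continuous fun q : ℝ × M => ((s, q.1), q.2)))
  simp only [h4]
  rw [swap ν (fun s p => ∫ r in (0:ℝ)..1, G (rt (s, r, 0) p)) ?_]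
  · have h5 : ∀ p, (∫ s in (0:ℝ)..1, (∫ r in (0:ℝ)..1, G (rt (s, r, 0) p))) =
        ∫ s in (0:ℝ)..1, (∫ r in (0:ℝ)..1, g s r) := by
      intro p
      obtain ⟨⟨x, y, z⟩, rfl⟩ := pr_surjective p
      simp only [rt_pr, hmul]
      have h6 : ∀ s, ∫ r in (0:ℝ)..1, G (pr (x + s, y + r, z + 0 + x * r)) =
          ∫ r in (0:ℝ)..1, g (x + s) r := by
        intro s
        rw [← integral_periodic_shift (fun r => g (x + s) r) (fun r => hgy _ _) y]
        refine intervalIntegral.integral_congr fun r _ => ?_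
        exact hz _ _ _
      simp only [h6]
      exact integral_periodic_shift (fun s => ∫ r in (0:ℝ)..1, g s r)
        (fun s => by simp only [hgx]) x
    simp only [h5]
    simp [hg]
  · refine intervalIntegral.continuous_parametric_intervalIntegral_of_continuous'
      (f := fun (q : ℝ × M) (r : ℝ) => G (rt (q.1, r, 0) q.2)) ?_ 0 1
    exact hcont.comp (by fun_prop : Continuous fun q : (ℝ × M) × ℝ => ((q.1.1, q.2), q.1.2))

end Pool.Agent.V5helper22.HeisNil
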