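import Pool.Agent.V5helper22.HeisUE

/-!
# Time-changes of nilflows: existence, uniqueness, flow property, invariant measure
-/

namespace Pool.Agent.V5helper22.HeisNil

open MeasureTheory Set Filter Topology
open scoped ENNReal

/-- `ψ` is the time-change of the flow `φ` by `α` (the flow generated by `X / α`, if `X`
generates `φ`): it has the same orbits, and the point `φ_t p` is reached from `p` at the time
`∫_0^t α(φ_s p) ds`. -/
def IsTimeChange (φ : ℝ → M → M) (α : M → ℝ) (ψ : ℝ → M → M) : Prop :=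
  ∀ p t, ψ (∫ s in (0:ℝ)..t, α (φ s p)) p = φ t p

/-- The probability measure proportional to `α dμ`. -/
noncomputable def tcMeasure (α : M → ℝ) : Measure M :=
  (ENNReal.ofReal (∫ p, α p ∂haarM))⁻¹ • haarM.withDensity (fun p => ENNReal.ofReal (α p))

section

variable (X : V) {α : M → ℝ} (hα : Continuous α) {c : ℝ} (hc : 0 < c) (hcα : ∀ p, c ≤ α p)

/-- the new time -/
noncomputable def tau (α : M → ℝ) (p : M) (t : ℝ) : ℝ := ∫ s in (0:ℝ)..t, α (nilflow X s p)

lemma nilflow_zero (p : M) : nilflow X 0 p = p := by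
  obtain ⟨⟨x, y, z⟩, rfl⟩ := pr_surjective p
  simp [nilflow, expX, hmul]

include hα in
lemma continuous_orbit (p : M) : Continuous fun s => α (nilflow X s p) :=
  hα.comp ((continuous_nilflow X).comp (by fun_prop : Continuous fun s : ℝ => (s, p)))

include hα in
lemma tau_continuous : Continuous fun q : M × ℝ => tau X α q.1 q.2 := by
  refine intervalIntegral.continuous_parametric_intervalIntegral_of_continuous
    (f := fun (q : M × ℝ) (s : ℝ) => α (nilflow X s q.1)) ?_ continuous_snd
  exact hα.comp ((continuous_nilflow X).comp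
    (by fun_prop : Continuous fun q : (M × ℝ) × ℝ => (q.2, q.1.1)))

include hα in
lemma tau_add (p : M) (t s : ℝ) :
    tau X α p (t + s) = tau X α p t + tau X α (nilflow X t p) s := by
  have hi := fun u v => (continuous_orbit X hα p).intervalIntegrable (μ := volume) u v
  unfold tau
  rw [← intervalIntegral.integral_add_adjacent_intervals (hi 0 t) (hi t (t + s))]
  congr 1
  simp only [nilflow_nilflow]
  rw [intervalIntegral.integral_comp_add_right (fun s => α (nilflow X s p)) t]
  simp [add_comm]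

include hα hcα in
lemma tau_sub_ge (p : M) {s t : ℝ} (hst : s ≤ t) : c * (t - s) ≤ tau X α p t - tau X α p s := by
  have hi := fun u v => (continuous_orbit X hα p).intervalIntegrable (μ := volume) u v
  unfold tau
  rw [intervalIntegral.integral_interval_sub_left (hi 0 t) (hi 0 s)]
  have h1 : ∫ _ in s..t, c = c * (t - s) := by simp [mul_comm]
  rw [← h1]
  exact intervalIntegral.integral_mono_on hst intervalIntegrable_const (hi s t)
    (fun u _ => hcα _)

include hα hc hcα in
lemma tau_strictMono (p : M) : StrictMono (tau X α p) := by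
  intro s t hst
  have h1 := tau_sub_ge X hα hcα p hst.le
  have h2 : 0 < c * (t - s) := mul_pos hc (by linarith)
  linarith

include hα hc hcα in
lemma tau_surjective (p : M) : Function.Surjective (tau X α p) := by
  have h0 : tau X α p 0 = 0 := by simp [tau]
  have hcont : Continuous (tau X α p) :=
    (tau_continuous X hα).comp (by fun_prop : Continuous fun t : ℝ => (p, t))
  refine hcont.surjective ?_ ?_
  · refine tendsto_atTop_mono' atTop (f₁ := fun t => c * t) ?_ (tendsto_id.const_mul_atTop hc)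
    filter_upwards [eventually_ge_atTop 0] with t ht
    have := tau_sub_ge X hα hcα p ht
    rw [h0] at this; linarith
  · refine tendsto_atBot_mono' atBot (f₂ := tau X α p) (f₁ := fun t => c * t) ?_
      (tendsto_id.const_mul_atBot hc)
    filter_upwards [eventually_le_atBot 0] with t ht
    have := tau_sub_ge X hα hcα p ht
    rw [h0] at this; linarith

/-- the time-changed flow -/
noncomputable def tc (α : M → ℝ) (s : ℝ) (p : M) : M :=
  nilflow X (Function.invFun (tau X α p) s) p

include hα hc hcα in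
lemma tau_invFun (p : M) (s : ℝ) : tau X α p (Function.invFun (tau X α p) s) = s :=
  Function.rightInverse_invFun (tau_surjective X hα hc hcα p) s

include hα hc hcα in
lemma invFun_tau (p : M) (t : ℝ) : Function.invFun (tau X α p) (tau X α p t) = t :=
  Function.leftInverse_invFun (tau_strictMono X hα hc hcα p).injective t

include hα hc hcα in
lemma isTimeChange_tc : IsTimeChange (nilflow X) α (tc X α) := by
  intro p t
  change tc X α (tau X α p t) p = _
  rw [tc, invFun_tau X hα hc hcα]

include hα hc hcα in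
lemma IsTimeChange.eq_tc {ψ : ℝ → M → M} (hψ : IsTimeChange (nilflow X) α ψ) : ψ = tc X α := by
  ext s p
  obtain ⟨t, rfl⟩ := tau_surjective X hα hc hcα p s
  have h1 := hψ p t
  have h2 := isTimeChange_tc X hα hc hcα p t
  change ψ (tau X α p t) p = _ at h1
  change tc X α (tau X α p t) p = _ at h2
  rw [h1, h2]

include hα hc hcα in
lemma tc_zero (p : M) : tc X α 0 p = p := by
  have h := isTimeChange_tc X hα hc hcα p 0
  simpa [nilflow_zero] using h

include hα hc hcα in
lemma tc_add (s t : ℝ) (p : M) : tc X α (s + t) p = tc X α s (tc X α t p) := by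
  obtain ⟨t', rfl⟩ := tau_surjective X hα hc hcα p t
  have h2 : tc X α (tau X α p t') p = nilflow X t' p := isTimeChange_tc X hα hc hcα p t'
  rw [h2]
  obtain ⟨s', rfl⟩ := tau_surjective X hα hc hcα (nilflow X t' p) s
  have h3 : tc X α (tau X α (nilflow X t' p) s') (nilflow X t' p) =
      nilflow X s' (nilflow X t' p) := isTimeChange_tc X hα hc hcα _ s'
  rw [h3, add_comm, ← tau_add X hα]
  have h4 : tc X α (tau X α p (t' + s')) p = nilflow X (t' + s') p :=
    isTimeChange_tc X hα hc hcα p _
  rw [h4, nilflow_nilflow, add_comm]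

include hα hc hcα in
lemma continuous_invTau : Continuous fun q : M × ℝ => Function.invFun (tau X α q.1) q.2 := by
  rw [continuous_iff_continuousAt]
  rintro ⟨p0, s0⟩
  rw [ContinuousAt, Metric.tendsto_nhds]
  intro ε hε
  simp only
  set t0 := Function.invFun (tau X α p0) s0 with ht0
  have h0 : tau X α p0 t0 = s0 := tau_invFun X hα hc hcα p0 s0
  have hm := tau_strictMono X hα hc hcα
  have hτ := tau_continuous X hα
  have e1 : ∀ᶠ q : M × ℝ in 𝓝 (p0, s0), tau X α q.1 (t0 - ε) < q.2 := by
    refine ContinuousAt.eventually_lt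
      ((hτ.comp (by fun_prop : Continuous fun q : M × ℝ => (q.1, t0 - ε))).continuousAt)
      continuousAt_snd ?_
    rw [← h0]
    exact hm p0 (by linarith)
  have e2 : ∀ᶠ q : M × ℝ in 𝓝 (p0, s0), q.2 < tau X α q.1 (t0 + ε) := by
    refine ContinuousAt.eventually_lt continuousAt_snd
      ((hτ.comp (by fun_prop : Continuous fun q : M × ℝ => (q.1, t0 + ε))).continuousAt) ?_
    rw [← h0]
    exact hm p0 (by linarith)
  filter_upwards [e1, e2] with q h1 h2
  rw [← tau_invFun X hα hc hcα q.1 q.2, (hm q.1).lt_iff_lt] at h1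
  nth_rewrite 1 [← tau_invFun X hα hc hcα q.1 q.2] at h2
  rw [(hm q.1).lt_iff_lt] at h2
  rw [Real.dist_eq, abs_lt]
  constructor <;> linarith

include hα hc hcα in
lemma continuous_tc : Continuous fun q : ℝ × M => tc X α q.1 q.2 := by
  unfold tc
  refine (continuous_nilflow X).comp (Continuous.prodMk ?_ continuous_snd)
  exact (continuous_invTau X hα hc hcα).comp
    (by fun_prop : Continuous fun q : ℝ × M => (q.2, q.1))

lemma swapR (ν : Measure M) [IsFiniteMeasure ν] (H : ℝ → M → ℝ)
    (hH : Continuous (Function.uncurry H)) :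
    ∫ s in (0:ℝ)..1, (∫ p, H s p ∂ν) = ∫ p, (∫ s in (0:ℝ)..1, H s p) ∂ν := by
  have h := swap ν (fun s p => ((H s p : ℝ) : ℂ)) (Complex.continuous_ofReal.comp hH)
  simp only [integral_complex_ofReal, intervalIntegral.integral_ofReal] at h
  exact_mod_cast h

lemma integrable_contR {ν : Measure M} [IsFiniteMeasure ν] {f : M → ℝ} (hf : Continuous f) :
    Integrable f ν :=
  hf.integrable_of_hasCompactSupport (HasCompactSupport.of_compactSpace f)

include hα in
lemma hasDerivAt_tau (p : M) (t : ℝ) : HasDerivAt (tau X α p) (α (nilflow X t p)) t :=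
  ((continuous_orbit X hα p).integral_hasStrictDerivAt 0 t).hasDerivAt

include hα hc hcα in
/-- the invariance of `α dμ` under the time-change, on continuous functions -/
lemma integral_tc (f : M → ℝ) (hf : Continuous f) (r : ℝ) :
    ∫ p, f (tc X α r p) * α p ∂haarM = ∫ p, f p * α p ∂haarM := by
  obtain ⟨B, hB⟩ := isCompact_univ.exists_bound_of_continuousOn hf.continuousOn
  have hB' : ∀ p, ‖f p‖ ≤ B := fun p => hB p (mem_univ p)
  have hB0 : 0 ≤ B := (norm_nonneg _).trans (hB' (pr 0))
  have hψ := continuous_tc X hα hc hcα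
  have hψr : Continuous (tc X α r) := hψ.comp (by fun_prop : Continuous fun p : M => (r, p))
  set G : M → ℝ := fun p => (f (tc X α r p) - f p) * α p with hG
  have hGc : Continuous G := ((hf.comp hψr).sub hf).mul hα
  have hG0 : ∫ p, G p ∂haarM =
      ∫ p, f (tc X α r p) * α p ∂haarM - ∫ p, f p * α p ∂haarM := by
    simp only [hG, sub_mul]
    have i1 : Integrable (fun p => f (tc X α r p) * α p) haarM :=
      integrable_contR ((hf.comp hψr).mul hα)
    have i2 : Integrable (fun p => f p * α p) haarM := integrable_contR (hf.mul hα)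
    rw [integral_sub i1 i2]
  -- the inner integral
  have inner : ∀ (p : M) (T : ℝ), |∫ s in (0:ℝ)..T, G (nilflow X s p)| ≤ B * |r| + B * |r| := by
    intro p T
    set h : ℝ → ℝ := fun u => f (tc X α u p) with hh
    have hhc : Continuous h := hf.comp (hψ.comp (by fun_prop : Continuous fun u : ℝ => (u, p)))
    have hhB : ∀ u, ‖h u‖ ≤ B := fun u => hB' _
    have e1 : ∀ s, G (nilflow X s p) =
        (h ∘ fun s => tau X α p s + r) s * α (nilflow X s p) -
          (h ∘ tau X α p) s * α (nilflow X s p) := by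
      intro s
      have h1 : tc X α (tau X α p s) p = nilflow X s p := isTimeChange_tc X hα hc hcα p s
      have h2 : tc X α (tau X α p s + r) p = tc X α r (nilflow X s p) := by
        rw [add_comm, tc_add X hα hc hcα, h1]
      simp only [hG, Function.comp, hh]
      rw [h1, h2]; ring
    have hαc := continuous_orbit X hα p
    have hτc : Continuous (tau X α p) :=
      (tau_continuous X hα).comp (by fun_prop : Continuous fun t : ℝ => (p, t))
    have i1 : Continuous fun s => (h ∘ fun s => tau X α p s + r) s * α (nilflow X s p) :=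
      (hhc.comp (hτc.add continuous_const)).mul hαc
    have i2 : Continuous fun s => (h ∘ tau X α p) s * α (nilflow X s p) :=
      (hhc.comp hτc).mul hαc
    have e2 : ∫ s in (0:ℝ)..T, G (nilflow X s p) =
        (∫ u in (tau X α p 0 + r)..(tau X α p T + r), h u) -
          ∫ u in (tau X α p 0)..(tau X α p T), h u := by
      simp only [e1]
      rw [intervalIntegral.integral_sub (i1.intervalIntegrable _ _) (i2.intervalIntegrable _ _)]
      congr 1
      · exact intervalIntegral.integral_comp_mul_deriv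
          (fun s _ => (hasDerivAt_tau X hα p s).add_const r) hαc.continuousOn hhc
      · exact intervalIntegral.integral_comp_mul_deriv
          (fun s _ => hasDerivAt_tau X hα p s) hαc.continuousOn hhc
    rw [e2]
    have hi := fun u v => hhc.intervalIntegrable (μ := volume) u v
    rw [intervalIntegral.integral_interval_sub_interval_comm (hi _ _) (hi _ _) (hi _ _)]
    refine (abs_sub _ _).trans ?_
    have b1 := intervalIntegral.norm_integral_le_of_norm_le_const (a := tau X α p 0 + r)
      (b := tau X α p 0) (C := B) (f := h) (fun u _ => hhB u)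
    have b2 := intervalIntegral.norm_integral_le_of_norm_le_const (a := tau X α p T + r)
      (b := tau X α p T) (C := B) (f := h) (fun u _ => hhB u)
    rw [show tau X α p 0 - (tau X α p 0 + r) = -r by ring, abs_neg] at b1
    rw [show tau X α p T - (tau X α p T + r) = -r by ring, abs_neg] at b2
    exact add_le_add b1 b2
  have avg : ∀ T : ℝ, 0 < T → |∫ p, G p ∂haarM| ≤ T⁻¹ * (B * |r| + B * |r|) := by
    intro T hT
    have e1 : ∫ p, G p ∂haarM = ∫ p, (∫ s in (0:ℝ)..1, G (nilflow X (T * s) p)) ∂haarM := by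
      rw [← swapR haarM (fun s p => G (nilflow X (T * s) p))
        (hGc.comp ((continuous_nilflow X).comp
          (by fun_prop : Continuous fun q : ℝ × M => (T * q.1, q.2))))]
      have h1 : ∀ s, ∫ p, G (nilflow X (T * s) p) ∂haarM = ∫ p, G p ∂haarM := by
        intro s
        conv_rhs => rw [← nilflow_haarM X (T * s)]
        have hcn : Continuous (nilflow X (T * s)) := continuous_rt_const _
        rw [integral_map hcn.aemeasurable hGc.aestronglyMeasurable]
      simp [h1]
    rw [e1, ← Real.norm_eq_abs]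
    refine (norm_integral_le_of_norm_le_const (C := T⁻¹ * (B * |r| + B * |r|))
      (ae_of_all _ fun p => ?_)).trans (by simp)
    rw [intervalIntegral.integral_comp_mul_left (fun s => G (nilflow X s p)) hT.ne', norm_smul,
      Real.norm_of_nonneg (by positivity), mul_zero, mul_one, Real.norm_eq_abs]
    exact mul_le_mul_of_nonneg_left (inner p T) (by positivity)
  have hz : |∫ p, G p ∂haarM| ≤ 0 := by
    have h1 : Tendsto (fun T : ℝ => T⁻¹ * (B * |r| + B * |r|)) atTop (𝓝 0) := by
      simpa using tendsto_inv_atTop_zero.mul_const (B * |r| + B * |r|)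
    refine ge_of_tendsto h1 ?_
    filter_upwards [eventually_gt_atTop 0] with T hT
    exact avg T hT
  have : ∫ p, G p ∂haarM = 0 := abs_eq_zero.1 (le_antisymm hz (abs_nonneg _))
  linarith

include hα hc hcα in
lemma integral_alpha_pos : 0 < ∫ p, α p ∂haarM := by
  have h1 : ∫ _, c ∂haarM = c := by simp
  refine lt_of_lt_of_le hc ?_
  rw [← h1]
  exact integral_mono (integrable_const c) (integrable_contR hα) hcα

include hα hc hcα in
lemma isProbabilityMeasure_tcMeasure : IsProbabilityMeasure (tcMeasure α) := by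
  have hpos := integral_alpha_pos hα hc hcα
  refine ⟨?_⟩
  rw [tcMeasure, Measure.smul_apply, withDensity_apply _ MeasurableSet.univ, setLIntegral_univ,
    ← ofReal_integral_eq_lintegral_ofReal (integrable_contR hα)
      (ae_of_all _ fun p => hc.le.trans (hcα p)), smul_eq_mul]
  exact ENNReal.inv_mul_cancel (by simpa using hpos) ENNReal.ofReal_ne_top

include hα hc hcα in
lemma integral_tcMeasure (g : M → ℝ) :
    ∫ p, g p ∂(tcMeasure α) = (∫ p, α p ∂haarM)⁻¹ * ∫ p, g p * α p ∂haarM := by
  have hpos := integral_alpha_pos hα hc hcα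
  rw [tcMeasure, integral_smul_measure, ENNReal.toReal_inv, ENNReal.toReal_ofReal hpos.le,
    integral_withDensity_eq_integral_toReal_smul hα.measurable.ennreal_ofReal
      (ae_of_all _ fun _ => ENNReal.ofReal_lt_top), smul_eq_mul]
  congr 1
  refine integral_congr_ae (ae_of_all _ fun p => ?_)
  simp only [smul_eq_mul]
  rw [ENNReal.toReal_ofReal (hc.le.trans (hcα p)), mul_comm]

include hα hc hcα in
/-- The time-change preserves the probability measure proportional to `α dμ`. -/
lemma measurePreserving_tc (r : ℝ) :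
    MeasurePreserving (tc X α r) (tcMeasure α) (tcMeasure α) := by
  have hψ := continuous_tc X hα hc hcα
  have hψr : Continuous (tc X α r) := hψ.comp (by fun_prop : Continuous fun p : M => (r, p))
  refine ⟨hψr.measurable, ?_⟩
  have := isProbabilityMeasure_tcMeasure hα hc hcα
  have : IsProbabilityMeasure ((tcMeasure α).map (tc X α r)) :=
    Measure.isProbabilityMeasure_map hψr.aemeasurable
  refine ext_of_forall_integral_eq_of_IsFiniteMeasure fun f => ?_
  rw [integral_map hψr.aemeasurable f.continuous.aestronglyMeasurable,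
    integral_tcMeasure hα hc hcα, integral_tcMeasure hα hc hcα,
    integral_tc X hα hc hcα f f.continuous r]

end

/-! ### Mixing and weak mixing -/

/-- `ψ` is mixing: `ν (ψ_t A ∩ B) → ν A ν B` for all measurable `A`, `B`. -/
def Mixing (ψ : ℝ → M → M) (ν : Measure M) : Prop :=
  ∀ A B : Set M, MeasurableSet A → MeasurableSet B →
    Tendsto (fun t : ℝ => ν (ψ t '' A ∩ B)) atTop (𝓝 (ν A * ν B))

/-- `ψ` is weakly mixing: `(1/t) ∫_0^t |ν (ψ_s A ∩ B) - ν A ν B| ds → 0` for all measurable
`A`, `B`. -/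
def WeaklyMixing (ψ : ℝ → M → M) (ν : Measure M) : Prop :=
  ∀ A B : Set M, MeasurableSet A → MeasurableSet B →
    Tendsto (fun t : ℝ => (1 / t) * ∫ s in (0:ℝ)..t,
      |(ν (ψ s '' A ∩ B)).toReal - (ν A).toReal * (ν B).toReal|) atTop (𝓝 0)

/-- a quarter of the plane which carries some of the law of `F` -/
lemma exists_quadrant (ν : Measure M) [IsProbabilityMeasure ν] (F : M → ℂ) (C : Set M)
    (hCν : ∀ᵐ p ∂ν, p ∈ C) (hFne : ∀ p ∈ C, F p ≠ 0) :
    ∃ Q : Set ℂ, MeasurableSet Q ∧ (∀ z ∈ Q, ∀ w ∈ Q, 0 < (z * star w).re) ∧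
      0 < ν (C ∩ F ⁻¹' Q) := by
  have hre : Measurable Complex.re := Complex.measurable_re
  have him : Measurable Complex.im := Complex.measurable_im
  set Q1 : Set ℂ := {z | 0 < z.re ∧ 0 ≤ z.im} with hQ1
  set Q2 : Set ℂ := {z | z.re ≤ 0 ∧ 0 < z.im} with hQ2
  set Q3 : Set ℂ := {z | z.re < 0 ∧ z.im ≤ 0} with hQ3
  set Q4 : Set ℂ := {z | 0 ≤ z.re ∧ z.im < 0} with hQ4
  have hcov : ∀ z : ℂ, z ≠ 0 → z ∈ Q1 ∨ z ∈ Q2 ∨ z ∈ Q3 ∨ z ∈ Q4 := by
    intro z hz
    have h0 : ¬ (z.re = 0 ∧ z.im = 0) := fun h => hz (Complex.ext h.1 h.2)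
    change (0 < z.re ∧ 0 ≤ z.im) ∨ (z.re ≤ 0 ∧ 0 < z.im) ∨ (z.re < 0 ∧ z.im ≤ 0) ∨
      (0 ≤ z.re ∧ z.im < 0)
    rcases lt_trichotomy z.re 0 with h1 | h1 | h1 <;> rcases lt_trichotomy z.im 0 with h2 | h2 | h2
    · exact Or.inr (Or.inr (Or.inl ⟨h1, h2.le⟩))
    · exact Or.inr (Or.inr (Or.inl ⟨h1, h2.le⟩))
    · exact Or.inr (Or.inl ⟨h1.le, h2⟩)
    · exact Or.inr (Or.inr (Or.inr ⟨h1.ge, h2⟩))
    · exact absurd ⟨h1, h2⟩ h0
    · exact Or.inr (Or.inl ⟨h1.le, h2⟩)
    · exact Or.inr (Or.inr (Or.inr ⟨h1.le, h2⟩))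
    · exact Or.inl ⟨h1, h2.ge⟩
    · exact Or.inl ⟨h1, h2.le⟩
  have hform : ∀ z w : ℂ, (z * star w).re = z.re * w.re + z.im * w.im := by
    intro z w; simp [Complex.mul_re]
  have m1 : MeasurableSet Q1 :=
    (measurableSet_lt measurable_const hre).inter (measurableSet_le measurable_const him)
  have m2 : MeasurableSet Q2 :=
    (measurableSet_le hre measurable_const).inter (measurableSet_lt measurable_const him)
  have m3 : MeasurableSet Q3 :=
    (measurableSet_lt hre measurable_const).inter (measurableSet_le him measurable_const)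
  have m4 : MeasurableSet Q4 :=
    (measurableSet_le measurable_const hre).inter (measurableSet_lt him measurable_const)
  have p1 : ∀ z ∈ Q1, ∀ w ∈ Q1, 0 < (z * star w).re := by
    rintro z ⟨h1, h2⟩ w ⟨h3, h4⟩
    rw [hform]; nlinarith [mul_pos h1 h3, mul_nonneg h2 h4]
  have p2 : ∀ z ∈ Q2, ∀ w ∈ Q2, 0 < (z * star w).re := by
    rintro z ⟨h1, h2⟩ w ⟨h3, h4⟩
    rw [hform]; nlinarith [mul_pos h2 h4, mul_nonneg_of_nonpos_of_nonpos h1 h3]
  have p3 : ∀ z ∈ Q3, ∀ w ∈ Q3, 0 < (z * star w).re := by
    rintro z ⟨h1, h2⟩ w ⟨h3, h4⟩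
    rw [hform]; nlinarith [mul_pos_of_neg_of_neg h1 h3, mul_nonneg_of_nonpos_of_nonpos h2 h4]
  have p4 : ∀ z ∈ Q4, ∀ w ∈ Q4, 0 < (z * star w).re := by
    rintro z ⟨h1, h2⟩ w ⟨h3, h4⟩
    rw [hform]; nlinarith [mul_nonneg h1 h3, mul_pos_of_neg_of_neg h2 h4]
  by_contra hcon
  push Not at hcon
  have n1 := nonpos_iff_eq_zero.1 (hcon Q1 m1 p1)
  have n2 := nonpos_iff_eq_zero.1 (hcon Q2 m2 p2)
  have n3 := nonpos_iff_eq_zero.1 (hcon Q3 m3 p3)
  have n4 := nonpos_iff_eq_zero.1 (hcon Q4 m4 p4)
  have hC0 : ν C = 0 := by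
    refine measure_mono_null ?_ (measure_union_null n1 (measure_union_null n2
      (measure_union_null n3 n4)))
    intro p hp
    rcases hcov (F p) (hFne p hp) with h | h | h | h
    · exact Or.inl ⟨hp, h⟩
    · exact Or.inr (Or.inl ⟨hp, h⟩)
    · exact Or.inr (Or.inr (Or.inl ⟨hp, h⟩))
    · exact Or.inr (Or.inr (Or.inr ⟨hp, h⟩))
  have hC1 : ν C = ν univ := measure_congr (by
    filter_upwards [hCν] with p hp
    exact propext ⟨fun _ => trivial, fun _ => hp⟩)
  rw [hC0, measure_univ] at hC1
  exact zero_ne_one hC1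

lemma ee_re (s : ℝ) : (ee s).re = Real.cos (2 * Real.pi * s) := by
  unfold ee
  rw [show (2 * Real.pi * s * Complex.I : ℂ) = ((2 * Real.pi * s : ℝ) : ℂ) * Complex.I by
    push_cast; ring]
  exact Complex.exp_ofReal_mul_I_re _

lemma ee_add_intCast' (y : ℝ) (n : ℤ) : ee (y + n) = ee y := by
  rw [ee_add, ee_intCast, mul_one]

/-- A flow with a measurable eigenfunction of eigenvalue `1` (i.e. `F ∘ ψ_s = exp (2 π i s) F`) is
neither weakly mixing nor mixing. -/
lemma not_mixing_of_eigenfunction {ψ : ℝ → M → M} {ν : Measure M} [IsProbabilityMeasure ν]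
    (hψ0 : ∀ p, ψ 0 p = p) (hψadd : ∀ s t p, ψ (s + t) p = ψ s (ψ t p))
    (F : M → ℂ) (hFm : Measurable F) (C : Set M) (hC : MeasurableSet C)
    (hCν : ∀ᵐ p ∂ν, p ∈ C) (hCinv : ∀ s, ∀ p ∈ C, ψ s p ∈ C)
    (hF : ∀ s, ∀ p ∈ C, F (ψ s p) = ee s * F p) (hFne : ∀ p ∈ C, F p ≠ 0) :
    ¬ WeaklyMixing ψ ν ∧ ¬ Mixing ψ ν := by
  obtain ⟨Q, hQm, hQ, hQν⟩ := exists_quadrant ν F C hCν hFne
  set A : Set M := C ∩ F ⁻¹' Q with hA
  have hAm : MeasurableSet A := hC.inter (hFm hQm)
  have hAν : 0 < (ν A).toReal := ENNReal.toReal_pos hQν.ne' (measure_ne_top _ _)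
  -- description of the moved set
  have himg : ∀ s, ψ s '' A ∩ A = {r | r ∈ C ∧ ee (-s) * F r ∈ Q ∧ F r ∈ Q} := by
    intro s
    ext r
    constructor
    · rintro ⟨⟨p, ⟨hpC, hpQ⟩, rfl⟩, hr⟩
      refine ⟨hr.1, ?_, hr.2⟩
      rw [hF s p hpC, ← mul_assoc, ee_neg_mul, one_mul]
      exact hpQ
    · rintro ⟨hrC, h1, h2⟩
      refine ⟨⟨ψ (-s) r, ⟨hCinv _ _ hrC, ?_⟩, ?_⟩, hrC, h2⟩
      · change F (ψ (-s) r) ∈ Q
        rw [hF _ _ hrC]; exact h1
      · rw [← hψadd, add_neg_cancel, hψ0]
  have hempty : ∀ s, (ee s).re ≤ 0 → ψ s '' A ∩ A = ∅ := by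
    intro s hs
    rw [eq_empty_iff_forall_notMem]
    rintro r ⟨⟨p, ⟨hpC, hpQ⟩, rfl⟩, hr⟩
    have h1 := hQ _ hr.2 _ hpQ
    rw [hF s p hpC, mul_assoc, Complex.star_def, Complex.mul_conj, Complex.re_mul_ofReal] at h1
    have h2 := Complex.normSq_nonneg (F p)
    nlinarith
  have hneg : ∀ s ∈ Icc (1/4:ℝ) (3/4), (ee s).re ≤ 0 := by
    intro s hs
    rw [ee_re]
    apply Real.cos_nonpos_of_pi_div_two_le_of_le
    · nlinarith [Real.pi_pos, hs.1]
    · nlinarith [Real.pi_pos, hs.2]
  have heeper : ∀ s, ee (s + 1) = ee s := by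
    intro s
    have := ee_add_intCast' s 1
    simpa using this
  constructor
  · intro hWM
    have h1 := hWM A A hAm hAm
    set H : ℝ → ℝ := fun s => |(ν (ψ s '' A ∩ A)).toReal - (ν A).toReal * (ν A).toReal| with hH
    have hper : Function.Periodic H 1 := by
      intro s
      simp only [hH, himg]
      have : ee (-(s + 1)) = ee (-s) := by
        rw [← heeper (-(s + 1))]; congr 1; ring
      rw [this]
    have hmeas : Measurable H := by
      have h2 : MeasurableSet {q : ℝ × M | q.2 ∈ C ∧ ee (-q.1) * F q.2 ∈ Q ∧ F q.2 ∈ Q} := by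
        refine (measurable_snd hC).inter (MeasurableSet.inter ?_ ((hFm.comp measurable_snd) hQm))
        exact (((continuous_ee.measurable.comp measurable_fst.neg).mul
          (hFm.comp measurable_snd))) hQm
      have h3 := measurable_measure_prodMk_left (ν := ν) h2
      have h4 : ∀ s, ν (ψ s '' A ∩ A) =
          ν (Prod.mk s ⁻¹' {q : ℝ × M | q.2 ∈ C ∧ ee (-q.1) * F q.2 ∈ Q ∧ F q.2 ∈ Q}) := by
        intro s; rw [himg]; rfl
      simp only [hH, h4]
      exact (h3.ennreal_toReal.sub_const _).abs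
    have hbd : ∀ s, ‖H s‖ ≤ 1 + 1 := by
      intro s
      simp only [hH, Real.norm_eq_abs, abs_abs]
      refine (abs_sub _ _).trans ?_
      have b1 : ∀ S : Set M, |(ν S).toReal| ≤ 1 := by
        intro S
        rw [abs_of_nonneg ENNReal.toReal_nonneg]
        exact ENNReal.toReal_le_of_le_ofReal zero_le_one (by simpa using prob_le_one)
      refine add_le_add (b1 _) ?_
      rw [abs_mul]
      exact mul_le_one₀ (b1 _) (abs_nonneg _) (b1 _)
    have hint : ∀ u v, IntervalIntegrable H volume u v := by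
      intro u v
      rw [intervalIntegrable_iff]
      refine Measure.integrableOn_of_bounded (M := 1 + 1) ?_ hmeas.aestronglyMeasurable
        (ae_of_all _ hbd)
      simp
    have hH0 : ∀ s, 0 ≤ H s := fun s => abs_nonneg _
    have hlow : (ν A).toReal * (ν A).toReal / 2 ≤ ∫ s in (0:ℝ)..1, H s := by
      have e1 : ∫ s in (1/4:ℝ)..(3/4), H s = (ν A).toReal * (ν A).toReal / 2 := by
        have : ∫ s in (1/4:ℝ)..(3/4), H s =
            ∫ s in (1/4:ℝ)..(3/4), (ν A).toReal * (ν A).toReal := by
          refine intervalIntegral.integral_congr fun s hs => ?_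
          rw [uIcc_of_le (by norm_num)] at hs
          simp only [hH]
          rw [hempty s (hneg s hs)]
          simp
        rw [this, intervalIntegral.integral_const]
        simp only [smul_eq_mul]; ring
      rw [← e1]
      exact intervalIntegral.integral_mono_interval (by norm_num) (by norm_num) (by norm_num)
        (ae_of_all _ hH0) (hint _ _)
    have h5 : ∀ n : ℕ, 0 < n → (1 / (n:ℝ)) * ∫ s in (0:ℝ)..n, H s = ∫ s in (0:ℝ)..1, H s := by
      intro n hn
      have e1 := hper.intervalIntegral_add_zsmul_eq n 0 hint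
      simp only [zero_add, zsmul_eq_mul, mul_one, Int.cast_natCast] at e1
      rw [e1]
      have : (n:ℝ) ≠ 0 := by exact_mod_cast hn.ne'
      field_simp
    have h6 : Tendsto (fun n : ℕ => (1 / (n:ℝ)) * ∫ s in (0:ℝ)..n, H s) atTop (𝓝 0) :=
      h1.comp tendsto_natCast_atTop_atTop
    have h7 : Tendsto (fun n : ℕ => (1 / (n:ℝ)) * ∫ s in (0:ℝ)..n, H s) atTop
        (𝓝 (∫ s in (0:ℝ)..1, H s)) := by
      refine tendsto_const_nhds.congr' ?_
      filter_upwards [eventually_gt_atTop 0] with n hn
      exact (h5 n hn).symm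
    have h8 := tendsto_nhds_unique h6 h7
    have : 0 < (ν A).toReal * (ν A).toReal := mul_pos hAν hAν
    linarith
  · intro hMix
    have h1 := hMix A A hAm hAm
    have h2 : Tendsto (fun n : ℕ => (n:ℝ) + 1 / 2) atTop atTop :=
      tendsto_atTop_add_const_right _ _ tendsto_natCast_atTop_atTop
    have h3 := h1.comp h2
    have h4 : ∀ n : ℕ, ν (ψ ((n:ℝ) + 1 / 2) '' A ∩ A) = 0 := by
      intro n
      rw [hempty _ ?_, measure_empty]
      have : ee ((n:ℝ) + 1 / 2) = ee (1 / 2) := by
        rw [add_comm]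
        exact_mod_cast ee_add_intCast' (1 / 2) n
      rw [this]
      exact hneg _ ⟨by norm_num, by norm_num⟩
    simp only [Function.comp_def, h4] at h3
    have h5 := tendsto_nhds_unique h3 tendsto_const_nhds
    have h6 : ν A * ν A ≠ 0 := mul_ne_zero hQν.ne' hQν.ne'
    exact h6 h5

end Pool.Agent.V5helper22.HeisNil
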