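import Pool.Agent.V5helper22.HeisNil

/-!
# Unique ergodicity of Heisenberg nilflows with an irrational slope
-/

namespace Pool.Agent.V5helper22.HeisNil

open MeasureTheory Set Filter Topology
open scoped ENNReal

lemma integrable_cont {ν : Measure M} [IsFiniteMeasure ν] {f : M → ℂ} (hf : Continuous f) :
    Integrable f ν :=
  hf.integrable_of_hasCompactSupport (HasCompactSupport.of_compactSpace f)

lemma nilflow_nilflow (X : V) (s t : ℝ) (p : M) :
    nilflow X s (nilflow X t p) = nilflow X (s + t) p := by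
  simp only [nilflow, rt_rt]
  congr 1
  simp only [expX, hmul, Prod.mk.injEq]
  refine ⟨by ring, by ring, by ring⟩

lemma nilflow_center (X : V) (t c : ℝ) (p : M) :
    nilflow X t (rt (0, 0, c) p) = rt (0, 0, c) (nilflow X t p) := by
  simp only [nilflow, rt_rt]
  congr 1
  simp only [expX, hmul, Prod.mk.injEq]
  refine ⟨by ring, by ring, by ring⟩

lemma nilflow_haarM (X : V) (t : ℝ) : haarM.map (nilflow X t) = haarM := haarM_map_rt _

lemma unif_cont (F : M → ℂ) (hF : Continuous F) (ε : ℝ) (hε : 0 < ε) :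
    ∃ δ : ℝ, 0 < δ ∧ ∀ s : ℝ, |s| < δ → ∀ p, ‖F (rt (s, 0, 0) p) - F p‖ ≤ ε := by
  let Φ : ℝ → C(M, ℂ) := fun s => ⟨fun p => F (rt (s, 0, 0) p), hF.comp (continuous_rt_const _)⟩
  have hΦ : Continuous Φ := by
    refine ContinuousMap.continuous_of_continuous_uncurry _ ?_
    exact hF.comp (continuous_rt.comp
      (by fun_prop : Continuous fun q : ℝ × M => (((q.1, 0, 0) : V), q.2)))
  obtain ⟨δ, hδ, hδ'⟩ := Metric.continuous_iff.1 hΦ 0 ε hε
  refine ⟨δ, hδ, fun s hs p => ?_⟩
  have h1 := hδ' s (by simpa [Real.dist_eq] using hs)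
  have h2 := (ContinuousMap.dist_apply_le_dist (f := Φ s) (g := Φ 0) p).trans h1.le
  have h3 : Φ 0 p = F p := by
    change F (rt ((0:ℝ), 0, 0) p) = F p
    obtain ⟨⟨x, y, z⟩, rfl⟩ := pr_surjective p
    simp [hmul]
  rw [h3, dist_eq_norm] at h2
  exact h2

/-- The correlations of a function with a nonzero central frequency tend to `0`. -/
lemma corr_small (a : ℝ) (n : ℤ) (hn : n ≠ 0) (F : M → ℂ) (hF : Continuous F)
    (hFn : ∀ c p, F (rt (0, 0, c) p) = ee (n * c) * F p) (ε : ℝ) (hε : 0 < ε) :
    ∃ H : ℝ, 0 < H ∧ ∀ h : ℝ, H ≤ |h| →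
      ‖∫ p, F (nilflow (a, 1, 0) h p) * star (F p) ∂haarM‖ ≤ ε := by
  obtain ⟨C, hC⟩ := isCompact_univ.exists_bound_of_continuousOn hF.continuousOn
  have hC' : ∀ p, ‖F p‖ ≤ C := fun p => hC p (mem_univ p)
  have hC0 : 0 ≤ C := (norm_nonneg _).trans (hC' (pr 0))
  obtain ⟨δ, hδ, hδ2⟩ := unif_cont F hF (ε / (C + 1)) (by positivity)
  refine ⟨1 / δ, by positivity, fun h hh => ?_⟩
  have hhpos : 0 < |h| := lt_of_lt_of_le (by positivity) hh
  have hh0 : h ≠ 0 := abs_pos.1 hhpos
  have hn1 : (1:ℝ) ≤ |(n:ℝ)| := by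
    rw [← Int.cast_abs]
    exact_mod_cast Int.one_le_abs hn
  have hn0 : (n:ℝ) ≠ 0 := by exact_mod_cast hn
  set s : ℝ := 1 / (2 * n * h) with hs
  have hsδ : |s| < δ := by
    rw [hs, abs_div, abs_one, abs_mul, abs_mul, abs_two]
    rw [div_lt_iff₀ (by positivity)]
    have h2 : 1 ≤ δ * |h| := by
      rw [div_le_iff₀ hδ] at hh; linarith
    nlinarith [mul_pos hδ hhpos]
  set γ := ∫ p, F (nilflow (a, 1, 0) h p) * star (F p) ∂haarM with hγ
  have hce : Continuous fun p => F (nilflow (a, 1, 0) h p) * star (F p) :=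
    (hF.comp (continuous_rt_const _)).mul hF.star
  have hY : ∀ p, nilflow (a, 1, 0) h (rt (s, 0, 0) p) =
      rt (0, 0, s * h) (rt (s, 0, 0) (nilflow (a, 1, 0) h p)) := by
    intro p
    simp only [nilflow, rt_rt]
    congr 1
    simp only [expX, hmul, Prod.mk.injEq]
    refine ⟨by ring, by ring, by ring⟩
  have h1 : γ = ∫ p, -(F (rt (s, 0, 0) (nilflow (a, 1, 0) h p)) *
      star (F (rt (s, 0, 0) p))) ∂haarM := by
    rw [hγ, ← integral_comp_inv (rt (s, 0, 0)) (continuous_rt_const _) (haarM_map_rt _) _ hce]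
    refine integral_congr_ae (ae_of_all _ fun p => ?_)
    simp only
    rw [hY, hFn, show (n:ℝ) * (s * h) = 1 / 2 by rw [hs]; field_simp, ee_half]
    ring
  have hce2 : Continuous fun p => F (rt (s, 0, 0) (nilflow (a, 1, 0) h p)) *
      star (F (rt (s, 0, 0) p)) :=
    (hF.comp ((continuous_rt_const _).comp (continuous_rt_const _))).mul
      (hF.comp (continuous_rt_const _)).star
  have h2 : γ + γ = ∫ p, (F (nilflow (a, 1, 0) h p) * star (F p) -
      F (rt (s, 0, 0) (nilflow (a, 1, 0) h p)) * star (F (rt (s, 0, 0) p))) ∂haarM := by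
    rw [integral_sub (integrable_cont hce) (integrable_cont hce2)]
    nth_rewrite 2 [h1]
    rw [integral_neg]
    ring
  have h3 : ‖γ + γ‖ ≤ 2 * ε := by
    rw [h2]
    refine (norm_integral_le_of_norm_le_const (C := 2 * ε) (ae_of_all _ fun p => ?_)).trans ?_
    · set A := F (nilflow (a, 1, 0) h p)
      set B := F p
      set A' := F (rt (s, 0, 0) (nilflow (a, 1, 0) h p))
      set B' := F (rt (s, 0, 0) p)
      have e1 : A * star B - A' * star B' = (A - A') * star B + A' * star (B - B') := by
        rw [star_sub]; ring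
      rw [e1]
      refine (norm_add_le _ _).trans ?_
      rw [norm_mul, norm_mul, norm_star, norm_star]
      have b1 : ‖A - A'‖ ≤ ε / (C + 1) := by rw [norm_sub_rev]; exact hδ2 s hsδ _
      have b2 : ‖B - B'‖ ≤ ε / (C + 1) := by rw [norm_sub_rev]; exact hδ2 s hsδ _
      have b3 : ‖B‖ ≤ C := hC' _
      have b4 : ‖A'‖ ≤ C := hC' _
      have b5 : ε / (C + 1) * C ≤ ε := by
        rw [div_mul_eq_mul_div, div_le_iff₀ (by positivity)]
        nlinarith
      have b6 : ‖A - A'‖ * ‖B‖ ≤ ε / (C + 1) * C :=
        mul_le_mul b1 b3 (norm_nonneg _) (by positivity)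
      have b7 : ‖A'‖ * ‖B - B'‖ ≤ C * (ε / (C + 1)) :=
        mul_le_mul b4 b2 (norm_nonneg _) hC0
      nlinarith
    · simp
  have h4 : ‖γ + γ‖ = 2 * ‖γ‖ := by
    rw [← two_mul, norm_mul]; simp
  linarith

/-- Functions with a nonzero central frequency have integral `0`. -/
lemma integral_freq {a : ℝ} (ha : Irrational a) {ν : Measure M} [IsProbabilityMeasure ν]
    (hν : ∀ t, ν.map (nilflow (a, 1, 0) t) = ν) (n : ℤ) (hn : n ≠ 0) (F : M → ℂ)
    (hF : Continuous F) (hFn : ∀ c p, F (rt (0, 0, c) p) = ee (n * c) * F p) :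
    ∫ p, F p ∂ν = 0 := by
  obtain ⟨C, hC⟩ := isCompact_univ.exists_bound_of_continuousOn hF.continuousOn
  have hC' : ∀ p, ‖F p‖ ≤ C := fun p => hC p (mem_univ p)
  have hC0 : 0 ≤ C := (norm_nonneg _).trans (hC' (pr 0))
  set c := ∫ p, F p ∂ν with hc
  set φ := nilflow (a, 1, 0) with hφ
  have hφc : ∀ t, Continuous (φ t) := fun t => continuous_rt_const _
  -- the correlations for `ν` and for Haar measure agree
  have hcorr : ∀ h, ∫ p, F (φ h p) * star (F p) ∂ν = ∫ p, F (φ h p) * star (F p) ∂haarM := by
    intro h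
    have hG : Continuous fun p => F (φ h p) * star (F p) := (hF.comp (hφc h)).mul hF.star
    have hR : ∀ c p, F (φ h (rt (0, 0, c) p)) * star (F (rt (0, 0, c) p)) =
        F (φ h p) * star (F p) := by
      intro c p
      rw [hφ, nilflow_center, hFn, hFn, star_mul, star_ee]
      have := ee_neg_mul (n * c)
      linear_combination (F (nilflow (a, 1, 0) h p) * star (F p)) * this
    rw [integral_base ha hν _ hG hR, integral_base ha (fun t => nilflow_haarM _ t) _ hG hR]
  -- main estimate
  have main : ∀ ε : ℝ, 0 < ε → ∀ N : ℕ, 0 < N → ‖c‖ ^ 2 ≤ C ^ 2 / N + ε := by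
    intro ε hε N hN
    obtain ⟨H, hH, hsmall⟩ := corr_small a n hn F hF hFn ε hε
    set D : M → ℂ := fun p => ∑ j ∈ Finset.range N, (F (φ (j * H) p) - c) with hD
    have hγ : ∀ j k : ℕ, ∫ p, (F (φ (j * H) p) - c) * star (F (φ (k * H) p) - c) ∂ν =
        (∫ p, F (φ ((j - k) * H) p) * star (F p) ∂ν) - c * star c := by
      intro j k
      have i1 : Integrable (fun p => F (φ (j * H) p) * star (F (φ (k * H) p))) ν :=
        integrable_cont ((hF.comp (hφc _)).mul (hF.comp (hφc _)).star)
      have i2 : Integrable (fun p => c * star (F (φ (k * H) p))) ν :=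
        integrable_cont (continuous_const.mul (hF.comp (hφc _)).star)
      have i3 : Integrable (fun p => F (φ (j * H) p) * star c) ν :=
        integrable_cont ((hF.comp (hφc _)).mul continuous_const)
      have e1 : ∀ p, (F (φ (j * H) p) - c) * star (F (φ (k * H) p) - c) =
          F (φ (j * H) p) * star (F (φ (k * H) p)) - c * star (F (φ (k * H) p)) -
          F (φ (j * H) p) * star c + c * star c := by
        intro p; rw [star_sub]; ring
      simp only [e1]
      have i4 : Integrable (fun p => F (φ (j * H) p) * star (F (φ (k * H) p)) -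
        c * star (F (φ (k * H) p))) ν := i1.sub i2
      have i5 : Integrable (fun p => F (φ (j * H) p) * star (F (φ (k * H) p)) -
        c * star (F (φ (k * H) p)) - F (φ (j * H) p) * star c) ν := i4.sub i3
      rw [integral_add i5 (integrable_const _), integral_sub i4 i3, integral_sub i1 i2]
      have e2 : ∫ p, c * star (F (φ (k * H) p)) ∂ν = c * star c := by
        rw [integral_const_mul]
        congr 1
        have := integral_conj (μ := ν) (f := fun p => F (φ (k * H) p))
        have e3 : ∫ p, star (F (φ (k * H) p)) ∂ν = star (∫ p, F (φ (k * H) p) ∂ν) := this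
        rw [e3, integral_comp_inv _ (hφc _) (hν _) F hF]
      have e4 : ∫ p, F (φ (j * H) p) * star c ∂ν = c * star c := by
        rw [integral_mul_const, integral_comp_inv _ (hφc _) (hν _) F hF]
      have e5 : ∫ p, F (φ (j * H) p) * star (F (φ (k * H) p)) ∂ν =
          ∫ p, F (φ ((j - k) * H) p) * star (F p) ∂ν := by
        rw [← integral_comp_inv (φ (k * H)) (hφc _) (hν _)
          (fun p => F (φ ((j - k) * H) p) * star (F p)) ((hF.comp (hφc _)).mul hF.star)]
        refine integral_congr_ae (ae_of_all _ fun p => ?_)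
        simp only
        rw [hφ, nilflow_nilflow]
        congr 4
        ring
      rw [e2, e4, e5]
      simp
    have hDD : ∫ p, D p * star (D p) ∂ν = ∑ j ∈ Finset.range N, ∑ k ∈ Finset.range N,
        ((∫ p, F (φ ((j - k) * H) p) * star (F p) ∂ν) - c * star c) := by
      have e1 : ∀ p, D p * star (D p) = ∑ j ∈ Finset.range N, ∑ k ∈ Finset.range N,
          (F (φ (j * H) p) - c) * star (F (φ (k * H) p) - c) := by
        intro p
        simp only [hD]
        rw [star_sum, Finset.sum_mul_sum]
      simp only [e1]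
      have hint : ∀ j k : ℕ, Integrable
          (fun p => (F (φ (j * H) p) - c) * star (F (φ (k * H) p) - c)) ν := fun j k =>
        integrable_cont (((hF.comp (hφc _)).sub continuous_const).mul
          ((hF.comp (hφc _)).sub continuous_const).star)
      rw [integral_finsetSum _ fun j _ => integrable_finsetSum _ fun k _ => hint j k]
      refine Finset.sum_congr rfl fun j _ => ?_
      rw [integral_finsetSum _ fun k _ => hint j k]
      exact Finset.sum_congr rfl fun k _ => hγ j k
    have hpos : 0 ≤ (∫ p, D p * star (D p) ∂ν).re := by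
      have e1 : ∀ p, D p * star (D p) = ((‖D p‖ ^ 2 : ℝ) : ℂ) := by
        intro p
        rw [Complex.star_def, Complex.mul_conj, Complex.normSq_eq_norm_sq]
      simp only [e1]
      rw [integral_complex_ofReal, Complex.ofReal_re]
      exact integral_nonneg fun p => by positivity
    have hcc : c * star c = ((‖c‖ ^ 2 : ℝ) : ℂ) := by
      rw [Complex.star_def, Complex.mul_conj, Complex.normSq_eq_norm_sq]
    have hb : ∀ j k : ℕ, ((∫ p, F (φ ((j - k) * H) p) * star (F p) ∂ν) - c * star c).re ≤
        (if j = k then C ^ 2 else 0) + ε - ‖c‖ ^ 2 := by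
      intro j k
      rw [Complex.sub_re, hcc, Complex.ofReal_re]
      have : (∫ p, F (φ ((j - k) * H) p) * star (F p) ∂ν).re ≤
          (if j = k then C ^ 2 else 0) + ε := by
        refine (Complex.re_le_norm _).trans ?_
        split_ifs with hjk
        · have : ‖∫ p, F (φ ((j - k) * H) p) * star (F p) ∂ν‖ ≤ C ^ 2 * (ν univ).toReal := by
            refine norm_integral_le_of_norm_le_const (ae_of_all _ fun p => ?_)
            rw [norm_mul, norm_star, sq]
            exact mul_le_mul (hC' _) (hC' _) (norm_nonneg _) hC0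
          simp at this
          simp only [sub_self, zero_mul, hjk, Complex.star_def] at this ⊢
          linarith
        · rw [hcorr, zero_add]
          refine hsmall _ ?_
          rw [abs_mul, abs_of_pos hH]
          have h1 : (1:ℝ) ≤ |(j:ℝ) - k| := by
            have : (1:ℤ) ≤ |(j:ℤ) - k| := Int.one_le_abs (by omega)
            exact_mod_cast this
          nlinarith
      linarith
    have hsum : (∫ p, D p * star (D p) ∂ν).re ≤ N * C ^ 2 + N ^ 2 * ε - N ^ 2 * ‖c‖ ^ 2 := by
      rw [hDD, Complex.re_sum]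
      have : ∀ j ∈ Finset.range N, (∑ k ∈ Finset.range N,
          ((∫ p, F (φ ((j - k) * H) p) * star (F p) ∂ν) - c * star c)).re ≤
          C ^ 2 + N * ε - N * ‖c‖ ^ 2 := by
        intro j hj
        rw [Complex.re_sum]
        refine (Finset.sum_le_sum fun k _ => hb j k).trans ?_
        rw [Finset.sum_sub_distrib, Finset.sum_add_distrib, Finset.sum_ite_eq]
        simp [hj]
      refine (Finset.sum_le_sum this).trans ?_
      rw [Finset.sum_const, Finset.card_range, nsmul_eq_mul]
      nlinarith
    have hN' : (0:ℝ) < N := by exact_mod_cast hN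
    have hfin : N ^ 2 * ‖c‖ ^ 2 ≤ N * C ^ 2 + N ^ 2 * ε := by linarith
    have e3 : C ^ 2 / N + ε = (N * C ^ 2 + N ^ 2 * ε) / N ^ 2 := by
      field_simp
    rw [e3, le_div_iff₀ (by positivity)]
    linarith
  have hle : ‖c‖ ^ 2 ≤ 0 := by
    refine le_of_forall_pos_le_add fun ε hε => ?_
    obtain ⟨N, hN⟩ := exists_nat_gt (C ^ 2 / (ε / 2))
    have hN0 : 0 < N := by
      have : (0:ℝ) < N := lt_of_le_of_lt (by positivity) hN
      exact_mod_cast this
    have h1 := main (ε / 2) (by positivity) N hN0
    have h2 : C ^ 2 / N ≤ ε / 2 := by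
      rw [div_lt_iff₀ (by positivity)] at hN
      rw [div_le_iff₀ (by exact_mod_cast hN0)]
      linarith
    linarith
  have : ‖c‖ = 0 := by nlinarith [norm_nonneg c]
  exact norm_eq_zero.1 this

/-- **Unique ergodicity** of the Heisenberg nilflow with an irrational slope. -/
theorem uniquelyErgodic_of_irrational {a : ℝ} (ha : Irrational a) :
    UniquelyErgodic (nilflow (a, 1, 0)) haarM := by
  refine ⟨fun t => nilflow_haarM _ t, fun ν hνp hν => ?_⟩
  have hz : ∀ x y z : ℝ, rt (0, 0, z) (pr (x, y, 0)) = pr (x, y, z) := by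
    intro x y z; simp [hmul]
  have hper : ∀ (c : ℝ) (p : M), rt (0, 0, c + 1) p = rt (0, 0, c) p := by
    intro c p
    obtain ⟨⟨x, y, z⟩, rfl⟩ := pr_surjective p
    simp only [rt_pr, hmul, add_zero, mul_zero]
    rw [← add_assoc, pr_add_z]
  refine ext_of_forall_integral_eq_of_IsFiniteMeasure fun f => ?_
  set F : M → ℂ := fun p => ((f p : ℝ) : ℂ) with hFdef
  have hF : Continuous F := Complex.continuous_ofReal.comp f.continuous
  have hRc : Continuous fun q : ℝ × M => rt (0, 0, q.1) q.2 :=
    continuous_rt.comp (by fun_prop : Continuous fun q : ℝ × M => (((0, 0, q.1) : V), q.2))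
  set F0 : M → ℂ := fun p => ∫ s in (0:ℝ)..1, F (rt (0, 0, s) p) with hF0
  have hF0c : Continuous F0 := by
    refine intervalIntegral.continuous_parametric_intervalIntegral_of_continuous'
      (f := fun (p : M) (s : ℝ) => F (rt (0, 0, s) p)) ?_ 0 1
    exact hF.comp (hRc.comp (by fun_prop : Continuous fun q : M × ℝ => (q.2, q.1)))
  have hF0R : ∀ c p, F0 (rt (0, 0, c) p) = F0 p := by
    intro c p
    simp only [hF0]
    rw [← integral_periodic_shift (fun s => F (rt (0, 0, s) p))
      (fun s => by simp only [hper]) c]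
    refine intervalIntegral.integral_congr fun s _ => ?_
    simp only [rt_rt]
    congr 2
    simp [hmul]
  have key : ∀ (ν : Measure M), IsProbabilityMeasure ν → (∀ t, ν.map (nilflow (a, 1, 0) t) = ν) →
      ∫ p, F p ∂ν = ∫ p, F0 p ∂ν := by
    intro ν _ hν
    set g : ℝ → ℂ := fun s => ∫ p, F (rt (0, 0, s) p) ∂ν with hg
    have hgc : Continuous g := by
      have := continuous_parametric_integral_of_continuous (μ := ν)
        (f := fun (s : ℝ) (p : M) => F (rt (0, 0, s) p)) (hF.comp hRc) isCompact_univ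
      simpa [hg] using this
    have hgp : Function.Periodic g 1 := by
      intro s
      simp only [hg, hper]
    have h0 : g 0 = ∫ p, F p ∂ν := by
      simp only [hg]
      refine integral_congr_ae (ae_of_all _ fun p => ?_)
      obtain ⟨⟨x, y, z⟩, rfl⟩ := pr_surjective p
      simp [hmul]
    have h1 := const_of_fourier g hgc hgp fun n hn => ?_
    · rw [← h0, h1]
      exact swap ν (fun s p => F (rt (0, 0, s) p)) (hF.comp hRc)
    · set Fn : M → ℂ := fun p => ∫ x in (0:ℝ)..1, ee (-(n * x)) * F (rt (0, 0, x) p) with hFn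
      have hHc : Continuous fun q : ℝ × M => ee (-(n * q.1)) * F (rt (0, 0, q.1) q.2) :=
        (continuous_ee.comp (by fun_prop)).mul (hF.comp hRc)
      have e1 : ∫ x in (0:ℝ)..1, ee (-(n * x)) * g x = ∫ p, Fn p ∂ν := by
        have := swap ν (fun x p => ee (-(n * x)) * F (rt (0, 0, x) p)) hHc
        rw [hFn, ← this]
        refine intervalIntegral.integral_congr fun x _ => ?_
        simp only [hg]
        rw [integral_const_mul]
      rw [e1]
      refine integral_freq ha hν n hn Fn ?_ ?_
      · refine intervalIntegral.continuous_parametric_intervalIntegral_of_continuous'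
          (f := fun (p : M) (x : ℝ) => ee (-(n * x)) * F (rt (0, 0, x) p)) ?_ 0 1
        change Continuous fun q : M × ℝ => ee (-(n * q.2)) * F (rt (0, 0, q.2) q.1)
        exact (continuous_ee.comp (by fun_prop : Continuous fun q : M × ℝ => -(n * q.2))).mul
          (hF.comp (hRc.comp (by fun_prop : Continuous fun q : M × ℝ => (q.2, q.1))))
      · intro c p
        simp only [hFn]
        rw [← integral_periodic_shift (fun x => ee (-(n * x)) * F (rt (0, 0, x) p)) ?_ c]
        · rw [← intervalIntegral.integral_const_mul]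
          refine intervalIntegral.integral_congr fun x _ => ?_
          simp only [rt_rt]
          have e2 : ee (-(n * x)) = ee (n * c) * ee (-(n * (c + x))) := by
            rw [← ee_add]; congr 1; ring
          rw [e2]
          have e3 : hmul (0, 0, c) (0, 0, x) = (0, 0, c + x) := by simp [hmul]
          rw [e3]
          ring
        · intro x
          simp only [hper]
          congr 1
          rw [show -((n:ℝ) * (x + 1)) = -(n * x) + ((-n : ℤ) : ℝ) by push_cast; ring, ee_add,
            ee_intCast, mul_one]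
  have h2 : ∫ p, F p ∂ν = ∫ p, F p ∂haarM := by
    rw [key ν hνp hν, key haarM inferInstance (fun t => nilflow_haarM _ t),
      integral_base ha hν F0 hF0c hF0R, integral_base ha (fun t => nilflow_haarM _ t) F0 hF0c hF0R]
  simp only [hFdef] at h2
  rw [integral_complex_ofReal, integral_complex_ofReal] at h2
  exact_mod_cast h2

end Pool.Agent.V5helper22.HeisNil
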